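import Pool.Agent.NGP.Defs

/-!
If the automorphism group of the Sylow subgroup `P` is a `p`-group then `N(P) = P C(P)`.
-/

set_option autoImplicit false

namespace Pool.Agent.NGP

open scoped Classical
open Pool.Agent.CTab

variable {G : Type} [Group G] [Fintype G]

theorem mem_of_aut {p : ℕ} [Fact p.Prime] (P : Sylow p G)
    (h : IsPGroup p (MulAut (P : Subgroup G))) :
    ∀ x ∈ Subgroup.normalizer ((P : Subgroup G) : Set G),
      ∃ u ∈ (P : Subgroup G), ∃ c ∈ Subgroup.centralizer ((P : Subgroup G) : Set G),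
        x = u * c := by
  intro x hx
  have h1 : ∃ k : ℕ, x ^ (p ^ k) ∈ Subgroup.centralizer ((P : Subgroup G) : Set G) := by
    obtain ⟨k, hk⟩ := h ((P : Subgroup G).normalizerMonoidHom ⟨x, hx⟩)
    refine ⟨k, ?_⟩
    rw [← map_pow, ← MonoidHom.mem_ker, Subgroup.normalizerMonoidHom_ker] at hk
    exact hk
  obtain ⟨k, hk⟩ := h1
  haveI hnorm : ((P : Subgroup G).subgroupOf
      (Subgroup.normalizer ((P : Subgroup G) : Set G))).Normal := Subgroup.normal_in_normalizer
  set m : ℕ := ((P : Subgroup G).subgroupOf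
      (Subgroup.normalizer ((P : Subgroup G) : Set G))).index with hm
  have h2 : x ^ m ∈ (P : Subgroup G) := by
    have h3 := Subgroup.pow_index_mem ((P : Subgroup G).subgroupOf
      (Subgroup.normalizer ((P : Subgroup G) : Set G))) ⟨x, hx⟩
    rw [← hm] at h3
    exact h3
  have h3 : ¬ p ∣ m := (P.subtype Subgroup.le_normalizer).not_dvd_index
  have h4 : Nat.Coprime (p ^ k) m :=
    Nat.Coprime.pow_left k (((Fact.out : p.Prime).coprime_iff_not_dvd).2 h3)
  have h5 : IsCoprime ((p ^ k : ℕ) : ℤ) (m : ℤ) := Nat.isCoprime_iff_coprime.2 h4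
  obtain ⟨a, b, hab⟩ := h5
  refine ⟨(x ^ m) ^ b, (P : Subgroup G).zpow_mem h2 b, (x ^ (p ^ k)) ^ a,
    (Subgroup.centralizer ((P : Subgroup G) : Set G)).zpow_mem hk a, ?_⟩
  rw [← zpow_natCast x m, ← zpow_natCast x (p ^ k), ← zpow_mul, ← zpow_mul, ← zpow_add]
  have h6 : (m : ℤ) * b + ((p ^ k : ℕ) : ℤ) * a = 1 := by linarith [hab]
  rw [h6, zpow_one]

theorem cyc_of_aut {p : ℕ} [Fact p.Prime] (P : Sylow p G)
    (h : IsPGroup p (MulAut (P : Subgroup G))) :
    CycAut (P : Subgroup G) ∧ FaithZ (P : Subgroup G) := by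
  refine ⟨⟨1, Subgroup.one_mem _, fun x hx => ?_⟩, fun x hx _ => mem_of_aut P h x hx⟩
  obtain ⟨u, hu, c, hc, he⟩ := mem_of_aut P h x hx
  exact ⟨0, u, hu, c, hc, by rw [zpow_zero, one_mul, he]⟩

end Pool.Agent.NGP
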