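import Pool.Agent.NGP.Defs
import Pool.Agent.CTab.B01
import Pool.Agent.CTab.B02
import Pool.Agent.CTab.B03
import Pool.Agent.CTab.B04
import Pool.Agent.CTab.B08
import Pool.Agent.CTab.B09
import Pool.Agent.CTab.B11
import Pool.Agent.CTab.B12
import Pool.Agent.CTab.V03

/-!
Character values at powers.

`exists_poly`: restrict `χ` to the cyclic subgroup `C = zpowers g` (`IsCh.res`), decompose it (`decomp` of B04, multiplicities
are natural numbers, `ip_nat`); the irreducible characters `μ` of the commutative group `C` are linear (copy the private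
lemma `v03_lin` of V03), `μ (g ^ k) = (μ g) ^ k` (`IsLin.pow_eq`) and `μ g ^ |G| = 1` (as `g ^ |G| = 1`), so
`μ g = ζ ^ e` (`IsPrimitiveRoot.eq_pow_of_pow_eq_one`). Take `f = Σ n_μ X ^ e_μ`.

`poly_eq`: `ζ` is a root of `f - g`, so the minimal polynomial of `ζ` over `ℤ`, the cyclotomic polynomial of order `n`
(`Polynomial.cyclotomic_eq_minpoly`, `minpoly.isIntegrallyClosed_dvd`), divides `f - g`; `ζ ^ k` is again a root of it
(`IsPrimitiveRoot.pow_of_coprime`, `Polynomial.isRoot_cyclotomic` or `IsPrimitiveRoot.minpoly_eq_pow_coprime`).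

`poly_int`: let `R = F %ₘ cyclotomic n ℤ`, of degree `< φ(n)`. `F(ζ^k) = R(ζ^k)` for all `k` prime to `n`. The polynomial
`R - F(ζ)` over `ℂ` has all the `φ(n)` primitive `n`-th roots of unity as roots and degree `< φ(n)`, so it is `0`
(`Polynomial.eq_zero_of_natDegree_lt_card_of_eval_eq_zero` or `Polynomial.card_roots`), and `F(ζ)` is the constant
coefficient of `R`. (For `n = 1`, `φ(1) = 1` and `R` is constant, the same argument.)
-/

set_option autoImplicit false

namespace Pool.Agent.NGP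

open scoped Classical
open Pool.Agent.CTab

private theorem pw_lin {G : Type} [Group G] [Fintype G] {C : Subgroup G}
    (hC : ∀ a ∈ C, ∀ b ∈ C, a * b = b * a) {χ : G → ℂ} (hχ : IsIr C χ) : IsLin C χ := by
  obtain ⟨d, r, hd, hr, htr⟩ := exists_mrep hχ.isCh
  have hres : res C (fun x => (r x).trace) = χ := by
    funext x
    unfold res
    by_cases hx : x ∈ C
    · rw [if_pos hx]
      exact htr x hx
    · rw [if_neg hx, hχ.isCh.1 x hx]
  have hi : IsIr C (res C (fun x => (r x).trace)) := by rw [hres]; exact hχ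
  have hsc : ∀ a ∈ C, ∃ c : ℂ, r a = c • (1 : Matrix (Fin d) (Fin d) ℂ) := by
    intro a ha
    apply schur hr hi
    intro b hb
    rw [← hr.2 a ha b hb, ← hr.2 b hb a ha, hC a ha b hb]
  obtain ⟨m, hm, hm1, _⟩ := hχ.deg_dvd
  have hdm : d = m := by
    have := hd.symm.trans hm1
    exact_mod_cast this
  have hd1 : d = 1 := by
    by_contra hne
    have h2 : 2 ≤ d := by omega
    have h3 := schur_entry hr hi (⟨0, by omega⟩ : Fin d) (⟨1, by omega⟩ : Fin d)
      (⟨0, by omega⟩ : Fin d) (⟨1, by omega⟩ : Fin d)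
    rw [if_pos rfl, if_pos rfl, mul_one, mul_one] at h3
    have h4 : (Nat.card C : ℂ) / d ≠ 0 := by
      apply div_ne_zero
      · exact_mod_cast Nat.card_pos.ne'
      · exact_mod_cast (by omega : d ≠ 0)
    apply h4
    rw [← h3]
    apply Finset.sum_eq_zero
    intro a _
    by_cases ha : a ∈ C
    · obtain ⟨c, hc⟩ := hsc a ha
      rw [if_pos ha, hc, Matrix.smul_apply, Matrix.one_apply_ne (by simp), smul_zero, zero_mul]
    · rw [if_neg ha]
  apply isLin_of_deg hχ.isCh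
  rw [hd, hd1, Nat.cast_one]

private theorem pw_root {n : ℕ} (hn : 0 < n) {ζ : ℂ} (hζ : IsPrimitiveRoot ζ n) {k : ℕ}
    (hk : Nat.Coprime k n) : Polynomial.aeval (ζ ^ k) (Polynomial.cyclotomic n ℤ) = 0 := by
  have h1 := (hζ.pow_of_coprime k hk).isRoot_cyclotomic hn
  rw [Polynomial.aeval_def, Polynomial.eval₂_eq_eval_map, Polynomial.map_cyclotomic]
  exact h1

theorem exists_poly {G : Type} [Group G] [Fintype G] {χ : G → ℂ} (hχ : IsCh (⊤ : Subgroup G) χ)
    (g : G) {ζ : ℂ} (hζ : IsPrimitiveRoot ζ (Nat.card G)) :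
    ∃ f : Polynomial ℤ, ∀ k : ℕ, χ (g ^ k) = Polynomial.aeval (ζ ^ k) f := by
  have hcomm : ∀ a ∈ Subgroup.zpowers g, ∀ b ∈ Subgroup.zpowers g, a * b = b * a := by
    rintro a ⟨i, rfl⟩ b ⟨j, rfl⟩
    exact ((Commute.refl g).zpow_zpow i j).eq
  have hres : IsCh (Subgroup.zpowers g) (res (Subgroup.zpowers g) χ) := hχ.res le_top
  have hdec := decomp hres
  have : NeZero (Nat.card G) := ⟨Nat.card_pos.ne'⟩
  have hψ : ∀ ψ : G → ℂ, ∃ n e : ℕ, ψ ∈ irr (Subgroup.zpowers g) →
      ip (Subgroup.zpowers g) (res (Subgroup.zpowers g) χ) ψ = n ∧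
        ∀ k : ℕ, ψ (g ^ k) = (ζ ^ k) ^ e := by
    intro ψ
    by_cases h : ψ ∈ irr (Subgroup.zpowers g)
    · have h1 := mem_irr.1 h
      obtain ⟨n, hn⟩ := ip_nat hres h1.isCh
      have h2 := pw_lin hcomm h1
      have hg : g ∈ Subgroup.zpowers g := Subgroup.mem_zpowers g
      have h3 : ψ g ^ Nat.card G = 1 := by
        rw [← h2.pow_eq hg, pow_card_eq_one', h2.2.1]
      obtain ⟨e, -, he⟩ := hζ.eq_pow_of_pow_eq_one h3
      refine ⟨n, e, fun _ => ⟨hn, fun k => ?_⟩⟩
      rw [h2.pow_eq hg, ← he, ← pow_mul, ← pow_mul, mul_comm]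
    · exact ⟨0, 0, fun h' => absurd h' h⟩
  choose n e hne using hψ
  refine ⟨∑ ψ ∈ irr (Subgroup.zpowers g), Polynomial.C (n ψ : ℤ) * Polynomial.X ^ (e ψ),
    fun k => ?_⟩
  have hk : g ^ k ∈ Subgroup.zpowers g := Subgroup.npow_mem_zpowers g k
  have h1 : χ (g ^ k) = res (Subgroup.zpowers g) χ (g ^ k) := (if_pos hk).symm
  rw [h1, hdec, Finset.sum_apply, map_sum]
  refine Finset.sum_congr rfl fun ψ hψ => ?_
  obtain ⟨h2, h3⟩ := hne ψ hψ
  rw [Pi.smul_apply, smul_eq_mul, h2, h3]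
  simp

theorem poly_eq {n : ℕ} (hn : 0 < n) {ζ : ℂ} (hζ : IsPrimitiveRoot ζ n) {f g : Polynomial ℤ}
    (h : Polynomial.aeval ζ f = Polynomial.aeval ζ g) {k : ℕ} (hk : Nat.Coprime k n) :
    Polynomial.aeval (ζ ^ k) f = Polynomial.aeval (ζ ^ k) g := by
  have h1 : Polynomial.aeval ζ (f - g) = 0 := by rw [map_sub, h, sub_self]
  have h2 : minpoly ℤ ζ ∣ f - g := minpoly.isIntegrallyClosed_dvd (hζ.isIntegral hn) h1
  obtain ⟨q, hq⟩ := h2
  have h3 : Polynomial.aeval (ζ ^ k) (f - g) = 0 := by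
    rw [hq, map_mul, hζ.minpoly_eq_pow_coprime hk, minpoly.aeval, zero_mul]
  rwa [map_sub, sub_eq_zero] at h3

theorem poly_int {n : ℕ} (hn : 0 < n) {ζ : ℂ} (hζ : IsPrimitiveRoot ζ n) {F : Polynomial ℤ}
    (h : ∀ k : ℕ, Nat.Coprime k n → Polynomial.aeval (ζ ^ k) F = Polynomial.aeval ζ F) :
    ∃ m : ℤ, Polynomial.aeval ζ F = (m : ℂ) := by
  have : NeZero n := ⟨hn.ne'⟩
  have hφ : 0 < Nat.totient n := Nat.totient_pos.2 hn
  have hne1 : Polynomial.cyclotomic n ℤ ≠ 1 := by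
    intro h1
    have h2 := Polynomial.natDegree_cyclotomic n ℤ
    rw [h1, Polynomial.natDegree_one] at h2
    omega
  have hdeg : (F %ₘ Polynomial.cyclotomic n ℤ).natDegree < Nat.totient n := by
    have h1 := Polynomial.natDegree_modByMonic_lt F (Polynomial.cyclotomic.monic n ℤ) hne1
    rwa [Polynomial.natDegree_cyclotomic] at h1
  have hev : ∀ k : ℕ, Nat.Coprime k n →
      Polynomial.aeval (ζ ^ k) (F %ₘ Polynomial.cyclotomic n ℤ) = Polynomial.aeval ζ F := by
    intro k hk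
    rw [← h k hk]
    conv_rhs => rw [← Polynomial.modByMonic_add_div F (Polynomial.cyclotomic n ℤ)]
    rw [map_add, map_mul, pw_root hn hζ hk, zero_mul, add_zero]
  have hz : (F %ₘ Polynomial.cyclotomic n ℤ).map (Int.castRingHom ℂ) -
      Polynomial.C (Polynomial.aeval ζ F) = 0 := by
    refine Polynomial.eq_zero_of_natDegree_lt_card_of_eval_eq_zero' _ (primitiveRoots n ℂ) ?_ ?_
    · intro w hw
      rw [mem_primitiveRoots hn] at hw
      obtain ⟨k, -, hk, rfl⟩ := hζ.isPrimitiveRoot_iff.1 hw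
      rw [Polynomial.eval_sub, Polynomial.eval_C, ← hev k hk, Polynomial.aeval_def,
        Polynomial.eval₂_eq_eval_map]
      exact sub_self _
    · rw [hζ.card_primitiveRoots]
      rw [Polynomial.natDegree_sub_C]
      exact lt_of_le_of_lt Polynomial.natDegree_map_le hdeg
  refine ⟨(F %ₘ Polynomial.cyclotomic n ℤ).coeff 0, ?_⟩
  have h1 := congrArg (fun p => Polynomial.coeff p 0) hz
  simp only [Polynomial.coeff_sub, Polynomial.coeff_map, Polynomial.coeff_C_zero,
    Polynomial.coeff_zero] at h1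
  rw [sub_eq_zero] at h1
  rw [← h1]
  rfl

end Pool.Agent.NGP
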