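import Pool.Agent.NGP.Defs
import Pool.Agent.NGP.Pw
import Pool.Agent.CTab.B01
import Pool.Agent.CTab.B02
import Pool.Agent.CTab.B06
import Pool.Agent.CTab.B11
import Pool.Agent.CTab.B12

/-!
Burnside: a nonlinear irreducible character has a zero.

`deg_one`: let `n = |L|`, `ζ` a primitive `n`-th root of unity, `f_g` the polynomial of `exists_poly` for `g`, and
`F = Π_{g ≠ 1} f_g`. For `k` prime to `n` the map `g ↦ g ^ k` is a bijection of `L` fixing `1` (`powCoprime`), so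
`F(ζ ^ k) = Π_{g ≠ 1} χ (g ^ k) = Π_{g ≠ 1} χ g = F(ζ)`. By `poly_int` this number is an integer `m`, nonzero by assumption, so
`Π_{g ≠ 1} |χ g|² ≥ 1`. With `log t ≤ t - 1`: `0 ≤ Σ_{g ≠ 1} log |χ g|² ≤ Σ_{g ≠ 1} |χ g|² - (n - 1)`, and
`Σ_g |χ g|² = n` (`ip χ χ = 1`, `isIr_iff`). So `|χ 1|² ≤ 1`; `χ 1` is a positive natural number (`IsIr.deg_dvd`), so `χ 1 = 1`.

`comm_of_no_zero`: all irreducible characters have degree one, so they are linear (`isLin_of_deg`) and take the value `1` on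
the commutator `c = a b a⁻¹ b⁻¹` (values are nonzero and multiplicative). By `col_orth` for `(c, 1)` and `(1, 1)`:
`#{x | x c x⁻¹ = 1} = Σ_χ χ c conj (χ 1) = Σ_χ χ 1 conj (χ 1) = |L| > 0`, so `c = 1`.
-/

set_option autoImplicit false

namespace Pool.Agent.NGP

open scoped Classical
open Pool.Agent.CTab

variable {L : Type} [Group L] [Fintype L]

theorem deg_one {χ : L → ℂ} (hχ : IsIr (⊤ : Subgroup L) χ) (h : ∀ g, χ g ≠ 0) : χ 1 = 1 := by
  obtain ⟨m0, hm0, hm1, -⟩ := hχ.deg_dvd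
  have hn : 0 < Nat.card L := Nat.card_pos
  have hζ := Complex.isPrimitiveRoot_exp (Nat.card L) hn.ne'
  set ζ : ℂ := Complex.exp (2 * Real.pi * Complex.I / (Nat.card L : ℕ)) with hζdef
  have hex : ∀ g : L, ∃ f : Polynomial ℤ, ∀ k : ℕ, χ (g ^ k) = Polynomial.aeval (ζ ^ k) f :=
    fun g => exists_poly hχ.isCh g hζ
  choose f hf using hex
  have hF : ∀ k : ℕ, Nat.Coprime k (Nat.card L) →
      Polynomial.aeval (ζ ^ k) (∏ g ∈ Finset.univ.erase (1 : L), f g) =
        ∏ g ∈ Finset.univ.erase (1 : L), χ g := by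
    intro k hk
    rw [map_prod]
    have hk' : (Nat.card L).Coprime k := hk.symm
    refine Finset.prod_nbij (fun g => g ^ k) ?_ ?_ ?_ ?_
    · intro g hg
      rw [Finset.mem_erase] at hg ⊢
      refine ⟨fun h1 => hg.1 ?_, Finset.mem_univ _⟩
      have h2 : powCoprime hk' g = powCoprime hk' 1 := by
        rw [powCoprime_apply, powCoprime_apply, one_pow]
        exact h1
      exact (powCoprime hk').injective h2
    · intro g _ g' _ hgg
      exact (powCoprime hk').injective (by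
        rw [powCoprime_apply, powCoprime_apply]
        exact hgg)
    · intro g hg
      rw [Finset.mem_coe, Finset.mem_erase] at hg
      obtain ⟨x, hx⟩ := (powCoprime hk').surjective g
      rw [powCoprime_apply] at hx
      refine ⟨x, ?_, hx⟩
      rw [Finset.mem_coe, Finset.mem_erase]
      refine ⟨fun h1 => hg.1 ?_, Finset.mem_univ _⟩
      rw [← hx, h1, one_pow]
    · intro g _
      exact (hf g k).symm
  have hF1 : Polynomial.aeval ζ (∏ g ∈ Finset.univ.erase (1 : L), f g) =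
        ∏ g ∈ Finset.univ.erase (1 : L), χ g := by
    have := hF 1 (Nat.coprime_one_left _)
    rwa [pow_one] at this
  obtain ⟨m, hm⟩ := poly_int hn hζ (F := ∏ g ∈ Finset.univ.erase (1 : L), f g)
    (fun k hk => by rw [hF k hk, hF1])
  rw [hF1] at hm
  have hm' : m ≠ 0 := by
    intro h0
    rw [h0, Int.cast_zero, Finset.prod_eq_zero_iff] at hm
    obtain ⟨g, -, hg⟩ := hm
    exact h g hg
  have hnorm : 1 ≤ ∏ g ∈ Finset.univ.erase (1 : L), ‖χ g‖ ^ 2 := by
    rw [Finset.prod_pow, ← norm_prod, hm, Complex.norm_intCast]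
    have h1 : (1 : ℝ) ≤ |(m : ℝ)| := by
      rw [← Int.cast_abs]
      exact_mod_cast Int.one_le_abs hm'
    nlinarith
  have hpos : ∀ g, 0 < ‖χ g‖ ^ 2 := fun g => by
    have := norm_pos_iff.2 (h g)
    positivity
  have hlog : 0 ≤ ∑ g ∈ Finset.univ.erase (1 : L), (‖χ g‖ ^ 2 - 1) := by
    have h1 := Real.log_nonneg hnorm
    rw [Real.log_prod (fun g _ => (hpos g).ne')] at h1
    refine h1.trans (Finset.sum_le_sum fun g _ => ?_)
    exact Real.log_le_sub_one_of_pos (hpos g)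
  have hsum : ∑ g : L, ‖χ g‖ ^ 2 = (Nat.card L : ℝ) := by
    have h1 := (isIr_iff.1 hχ).2
    unfold ip at h1
    rw [Subgroup.card_top] at h1
    have hc : (Nat.card L : ℂ) ≠ 0 := by exact_mod_cast hn.ne'
    have h2 : ∑ x : L, χ x * (starRingEnd ℂ) (χ x) = (Nat.card L : ℂ) := by
      field_simp at h1
      exact h1
    have h3 : ∑ x : L, χ x * (starRingEnd ℂ) (χ x) = ((∑ g : L, ‖χ g‖ ^ 2 : ℝ) : ℂ) := by
      push_cast
      refine Finset.sum_congr rfl fun x _ => ?_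
      rw [Complex.mul_conj, Complex.normSq_eq_norm_sq]
      push_cast
      rfl
    rw [h3] at h2
    exact_mod_cast h2
  have hsplit : ‖χ 1‖ ^ 2 + ∑ g ∈ Finset.univ.erase (1 : L), ‖χ g‖ ^ 2 = (Nat.card L : ℝ) := by
    rw [← hsum]
    exact Finset.add_sum_erase Finset.univ (fun g : L => ‖χ g‖ ^ 2) (Finset.mem_univ 1)
  rw [Finset.sum_sub_distrib, Finset.sum_const, Finset.card_erase_of_mem (Finset.mem_univ _),
    Finset.card_univ, ← Nat.card_eq_fintype_card, nsmul_eq_mul, mul_one,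
    Nat.cast_sub (by omega : 1 ≤ Nat.card L), Nat.cast_one] at hlog
  have h1 : ‖χ 1‖ ^ 2 ≤ 1 := by linarith
  rw [hm1, Complex.norm_natCast] at h1
  have h2 : (m0 : ℝ) ≤ 1 := by
    by_contra hcon
    push Not at hcon
    nlinarith
  have h3 : m0 = 1 := by
    have : m0 ≤ 1 := by exact_mod_cast h2
    omega
  rw [hm1, h3]
  norm_num

theorem comm_of_no_zero (h : ∀ χ, IsIr (⊤ : Subgroup L) χ → ∀ g, χ g ≠ 0) (a b : L) :
    a * b = b * a := by
  have hlin : ∀ χ ∈ irr (⊤ : Subgroup L), χ (a * b * a⁻¹ * b⁻¹) = 1 ∧ χ 1 = 1 := by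
    intro χ hχ
    have hir := mem_irr.1 hχ
    have h1 := deg_one hir (h χ hir)
    have hl := isLin_of_deg hir.isCh h1
    have hmul : ∀ x y, χ (x * y) = χ x * χ y := fun x y =>
      hl.2.2 x (Subgroup.mem_top _) y (Subgroup.mem_top _)
    refine ⟨?_, h1⟩
    have ha : χ a * χ a⁻¹ = 1 := by rw [← hmul, mul_inv_cancel, h1]
    have hb : χ b * χ b⁻¹ = 1 := by rw [← hmul, mul_inv_cancel, h1]
    rw [hmul, hmul, hmul]
    calc χ a * χ b * χ a⁻¹ * χ b⁻¹ = (χ a * χ a⁻¹) * (χ b * χ b⁻¹) := by ring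
      _ = 1 := by rw [ha, hb, one_mul]
  have h1 := col_orth (A := (⊤ : Subgroup L)) (x := a * b * a⁻¹ * b⁻¹) (y := 1)
    (Subgroup.mem_top _) (Subgroup.mem_top _)
  have h2 := col_orth (A := (⊤ : Subgroup L)) (x := 1) (y := 1)
    (Subgroup.mem_top _) (Subgroup.mem_top _)
  have h3 : ∑ χ ∈ irr (⊤ : Subgroup L), χ (a * b * a⁻¹ * b⁻¹) * (starRingEnd ℂ) (χ 1) =
      ∑ χ ∈ irr (⊤ : Subgroup L), χ 1 * (starRingEnd ℂ) (χ 1) := by
    refine Finset.sum_congr rfl fun χ hχ => ?_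
    rw [(hlin χ hχ).1, (hlin χ hχ).2]
  rw [h1, h2] at h3
  have h4 : Nat.card {x : L // x ∈ (⊤ : Subgroup L) ∧ x * (a * b * a⁻¹ * b⁻¹) * x⁻¹ = 1} =
      Nat.card {x : L // x ∈ (⊤ : Subgroup L) ∧ x * 1 * x⁻¹ = 1} := by exact_mod_cast h3
  have h5 : 0 < Nat.card {x : L // x ∈ (⊤ : Subgroup L) ∧ x * 1 * x⁻¹ = 1} := by
    have : Nonempty {x : L // x ∈ (⊤ : Subgroup L) ∧ x * 1 * x⁻¹ = 1} :=
      ⟨⟨1, Subgroup.mem_top _, by simp⟩⟩
    exact Nat.card_pos
  rw [← h4] at h5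
  obtain ⟨⟨x, -, hx⟩⟩ := (Nat.card_pos_iff.1 h5).1
  have h6 : a * b * a⁻¹ * b⁻¹ = 1 := by
    have h7 := congrArg (fun t => x⁻¹ * t * x) hx
    simp only [mul_one, inv_mul_cancel] at h7
    rw [← h7]
    group
  calc a * b = (a * b * a⁻¹ * b⁻¹) * (b * a) := by group
    _ = b * a := by rw [h6, one_mul]

end Pool.Agent.NGP
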