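import Pool.Agent.NGP.Defs
import Pool.Agent.CTab.B01
import Pool.Agent.CTab.B02
import Pool.Agent.CTab.B03
import Pool.Agent.CTab.B05
import Pool.Agent.CTab.B08
import Pool.Agent.CTab.B09
import Pool.Agent.CTab.B12

/-!
Convolution of class functions and central characters.

`conv_cls`: substitute `x ↦ a x a⁻¹` in the sum.

`sum_conv`: let `r` be a matrix representation with character `χ` (`exists_mrep`; `f 1 = d`). For a class function `f` put
`M f = Σ_x f x • r x`. It commutes with all `r a` (substitute `x ↦ a x a⁻¹`), so it is a scalar matrix `c • 1` (`schur`; the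
trace of `r` restricted to `⊤` is `χ`), and taking traces `Σ f x χ x = c d`. `M (conv f g) = M f * M g` (double sum, `x` and
`x⁻¹ z`). So `Σ (conv f g) χ = c c' d` and `d * (c c' d) = (c d) (c' d)`.

`cls_ext`: by linearity `h = f - g` is a class function with `Σ h x χ x = 0` for all irreducible `χ`. For irreducible `χ` the
complex conjugate of `χ` is irreducible (`IsCh.dual`, `isIr_iff`: `ip` of the conjugate is the conjugate of `ip χ χ = 1`), and
`ip ⊤ h (conj χ)` is up to the factor `1/|G|` equal to `Σ h x χ x`, hence `ip ⊤ h ψ = 0` for all irreducible `ψ`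
(`ψ = conj (conj ψ)`) and `h = 0` by `cls_eq_zero` of B05.
-/

set_option autoImplicit false

namespace Pool.Agent.NGP

open scoped Classical
open Pool.Agent.CTab

variable {G : Type} [Group G] [Fintype G]

/-- convolution -/
noncomputable def conv (f g : G → ℂ) : G → ℂ := fun z => ∑ x, f x * g (x⁻¹ * z)

omit [Fintype G] in
private theorem CC_cj {f : G → ℂ} (hf : Cls (⊤ : Subgroup G) f) (a x : G) :
    f (a * x * a⁻¹) = f x := hf.2 a trivial x

theorem conv_cls {f g : G → ℂ} (hf : Cls (⊤ : Subgroup G) f) (hg : Cls (⊤ : Subgroup G) g) :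
    Cls (⊤ : Subgroup G) (conv f g) := by
  refine ⟨fun x hx => absurd trivial hx, fun a _ x => ?_⟩
  unfold conv
  rw [← Equiv.sum_comp (MulAut.conj a).toEquiv]
  refine Finset.sum_congr rfl fun y _ => ?_
  have h1 : (MulAut.conj a).toEquiv y = a * y * a⁻¹ := rfl
  rw [h1, CC_cj hf]
  congr 1
  have h2 : (a * y * a⁻¹)⁻¹ * (a * x * a⁻¹) = a * (y⁻¹ * x) * a⁻¹ := by group
  rw [h2, CC_cj hg]

private theorem CC_scal {d : ℕ} {r : G → Matrix (Fin d) (Fin d) ℂ} (hr : IsMRep ⊤ r)
    (hi : IsIr (⊤ : Subgroup G) (res ⊤ (fun x => (r x).trace))) {f : G → ℂ}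
    (hf : Cls (⊤ : Subgroup G) f) :
    ∃ c : ℂ, ∑ x, f x • r x = c • (1 : Matrix (Fin d) (Fin d) ℂ) := by
  refine schur hr hi _ fun a _ => ?_
  rw [Finset.sum_mul, Finset.mul_sum, ← Equiv.sum_comp (MulAut.conj a).toEquiv]
  refine Finset.sum_congr rfl fun x _ => ?_
  have h1 : (MulAut.conj a).toEquiv x = a * x * a⁻¹ := rfl
  rw [h1, CC_cj hf, Matrix.smul_mul, Matrix.mul_smul, ← hr.2 _ trivial _ trivial,
    ← hr.2 _ trivial _ trivial]
  congr 2
  group

theorem sum_conv {χ f g : G → ℂ} (hχ : IsIr (⊤ : Subgroup G) χ) (hf : Cls (⊤ : Subgroup G) f)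
    (hg : Cls (⊤ : Subgroup G) g) :
    χ 1 * ∑ z, conv f g z * χ z = (∑ x, f x * χ x) * (∑ x, g x * χ x) := by
  obtain ⟨d, r, hd, hr, htr⟩ := exists_mrep hχ.isCh
  have hres : res ⊤ (fun x => (r x).trace) = χ := by
    funext x
    unfold Pool.Agent.CTab.res
    rw [if_pos (show x ∈ (⊤ : Subgroup G) from trivial)]
    exact htr x trivial
  have hi : IsIr (⊤ : Subgroup G) (res ⊤ (fun x => (r x).trace)) := by
    rw [hres]; exact hχ
  obtain ⟨c, hc⟩ := CC_scal hr hi hf
  obtain ⟨c', hc'⟩ := CC_scal hr hi hg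
  have htrc : ∀ (h : G → ℂ) (e : ℂ), ∑ x, h x • r x = e • (1 : Matrix (Fin d) (Fin d) ℂ) →
      ∑ x, h x * χ x = e * d := by
    intro h e he
    have h1 := congrArg Matrix.trace he
    rw [Matrix.trace_sum, Matrix.trace_smul, Matrix.trace_one, Fintype.card_fin] at h1
    rw [smul_eq_mul] at h1
    rw [← h1]
    refine Finset.sum_congr rfl fun x _ => ?_
    rw [Matrix.trace_smul, htr x trivial, smul_eq_mul]
  have hM : ∑ z, conv f g z • r z = (c * c') • (1 : Matrix (Fin d) (Fin d) ℂ) := by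
    have h2 : ∑ z, conv f g z • r z = (∑ x, f x • r x) * (∑ x, g x • r x) := by
      unfold conv
      simp only [Finset.sum_smul, Finset.sum_mul]
      rw [Finset.sum_comm]
      refine Finset.sum_congr rfl fun x _ => ?_
      rw [Finset.mul_sum, ← Equiv.sum_comp (Equiv.mulLeft x)]
      refine Finset.sum_congr rfl fun y _ => ?_
      have h3 : (Equiv.mulLeft x) y = x * y := rfl
      rw [h3, inv_mul_cancel_left, hr.2 x trivial y trivial, Matrix.smul_mul, Matrix.mul_smul,
        smul_smul]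
    rw [h2, hc, hc', Matrix.smul_mul, Matrix.one_mul, smul_smul]
  rw [htrc f c hc, htrc g c' hc', htrc _ _ hM, hd]
  ring

theorem cls_ext {f g : G → ℂ} (hf : Cls (⊤ : Subgroup G) f) (hg : Cls (⊤ : Subgroup G) g)
    (h : ∀ χ, IsIr (⊤ : Subgroup G) χ → ∑ x, f x * χ x = ∑ x, g x * χ x) : f = g := by
  have hh : Cls (⊤ : Subgroup G) (fun x => f x - g x) := by
    refine ⟨fun x hx => absurd trivial hx, fun a _ x => ?_⟩
    change f (a * x * a⁻¹) - g (a * x * a⁻¹) = f x - g x
    rw [CC_cj hf, CC_cj hg]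
  have hz := cls_eq_zero hh fun χ hχ => by
    have hdual : IsIr (⊤ : Subgroup G) (fun x => (starRingEnd ℂ) (χ x)) := by
      rw [isIr_iff]
      refine ⟨hχ.isCh.dual, ?_⟩
      have h1 := (isIr_iff.1 hχ).2
      have h2 : ip (⊤ : Subgroup G) (fun x => (starRingEnd ℂ) (χ x))
          (fun x => (starRingEnd ℂ) (χ x)) = (starRingEnd ℂ) (ip (⊤ : Subgroup G) χ χ) := by
        unfold ip
        rw [map_mul, map_sum, map_inv₀, Complex.conj_natCast]
        congr 1
        refine Finset.sum_congr rfl fun x _ => ?_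
        rw [map_mul]
      rw [h2, h1, map_one]
    have h3 := h _ hdual
    unfold ip
    have h4 : ∑ x, (f x - g x) * (starRingEnd ℂ) (χ x) = 0 := by
      simp only [sub_mul, Finset.sum_sub_distrib]
      rw [h3, sub_self]
    rw [h4, mul_zero]
  funext x
  have := congrFun hz x
  exact sub_eq_zero.1 this

end Pool.Agent.NGP
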