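import Pool.Agent.NGP.Defs

/-!
Counting modulo `p` (the Brauer map).

`card_modEq`: the `p`-group `P` acts on the finite set `{x | x ∈ S}` by conjugation (`u • x = u x u⁻¹`), with fixed points
`{x | x ∈ S ∧ x ∈ centralizer P}`; `IsPGroup.card_modEq_card_fixedPoints`.

`NN_modEq`: apply it to `S = {x | IsConj g₁ x ∧ IsConj g₂ (x⁻¹ * z)}`: for `u ∈ P` we have `u z u⁻¹ = z`, so
`(u x u⁻¹)⁻¹ z = u (x⁻¹ z) u⁻¹`.
-/

set_option autoImplicit false

namespace Pool.Agent.NGP

open scoped Classical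
open Pool.Agent.CTab

variable {G : Type} [Group G] [Fintype G]

theorem card_modEq {p : ℕ} [Fact p.Prime] {P : Subgroup G} (hP : IsPGroup p P) (S : Set G)
    (hS : ∀ u ∈ P, ∀ x ∈ S, u * x * u⁻¹ ∈ S) :
    Nat.card {x : G // x ∈ S} ≡
      Nat.card {x : G // x ∈ S ∧ x ∈ Subgroup.centralizer (P : Set G)} [MOD p] := by
  let act : MulAction P {x : G // x ∈ S} :=
    { smul := fun u x => ⟨(u : G) * x.1 * (u : G)⁻¹, hS u.1 u.2 x.1 x.2⟩
      one_smul := by
        intro x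
        apply Subtype.ext
        change ((1 : P) : G) * x.1 * ((1 : P) : G)⁻¹ = x.1
        simp
      mul_smul := by
        intro u v x
        apply Subtype.ext
        change ((u * v : P) : G) * x.1 * ((u * v : P) : G)⁻¹ =
          (u : G) * ((v : G) * x.1 * (v : G)⁻¹) * (u : G)⁻¹
        rw [Subgroup.coe_mul, mul_inv_rev]
        group }
  have hsmul : ∀ (u : P) (x : {x : G // x ∈ S}), (u • x).1 = (u : G) * x.1 * (u : G)⁻¹ :=
    fun _ _ => rfl
  have h := hP.card_modEq_card_fixedPoints {x : G // x ∈ S}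
  have e : Nat.card (MulAction.fixedPoints P {x : G // x ∈ S}) =
      Nat.card {x : G // x ∈ S ∧ x ∈ Subgroup.centralizer (P : Set G)} := by
    apply Nat.card_congr
    refine
      { toFun := fun x => ⟨x.1.1, x.1.2, ?_⟩
        invFun := fun x => ⟨⟨x.1, x.2.1⟩, ?_⟩
        left_inv := fun x => rfl
        right_inv := fun x => rfl }
    · rw [Subgroup.mem_centralizer_iff]
      intro u hu
      have h1 : (⟨u, hu⟩ : P) • x.1 = x.1 := x.2 ⟨u, hu⟩
      have h2 := congrArg Subtype.val h1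
      rw [hsmul] at h2
      change u * x.1.1 * u⁻¹ = x.1.1 at h2
      exact mul_inv_eq_iff_eq_mul.mp h2
    · intro u
      apply Subtype.ext
      rw [hsmul]
      have h1 := Subgroup.mem_centralizer_iff.mp x.2.2 u.1 u.2
      change (u : G) * x.1 * (u : G)⁻¹ = x.1
      rw [h1, mul_inv_cancel_right]
  rw [← e]
  exact h

theorem NN_modEq {p : ℕ} [Fact p.Prime] {P : Subgroup G} (hP : IsPGroup p P) (g₁ g₂ : G) {z : G}
    (hz : z ∈ Subgroup.centralizer (P : Set G)) :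
    NN g₁ g₂ z ≡
      Nat.card {x : G // (IsConj g₁ x ∧ IsConj g₂ (x⁻¹ * z)) ∧
        x ∈ Subgroup.centralizer (P : Set G)} [MOD p] := by
  have h := card_modEq hP {x : G | IsConj g₁ x ∧ IsConj g₂ (x⁻¹ * z)} (by
    rintro u hu x ⟨h1, h2⟩
    refine ⟨h1.trans (isConj_iff.mpr ⟨u, rfl⟩), ?_⟩
    have hz1 := Subgroup.mem_centralizer_iff.mp hz u hu
    have e : (u * x * u⁻¹)⁻¹ * z = u * (x⁻¹ * z) * u⁻¹ := by
      have hz2 : z = u * z * u⁻¹ := by rw [hz1, mul_inv_cancel_right]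
      calc (u * x * u⁻¹)⁻¹ * z = (u * x * u⁻¹)⁻¹ * (u * z * u⁻¹) := by rw [← hz2]
        _ = u * (x⁻¹ * z) * u⁻¹ := by group
    rw [e]
    exact h2.trans (isConj_iff.mpr ⟨u, rfl⟩))
  exact h

end Pool.Agent.NGP
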