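import Pool.Agent.NGP.Defs

/-!
Automizers of small Sylow subgroups.

`faith_of_comm`: `Z(P) = P`, an element commuting with `P` is in the centraliser of `P` (`x = 1 * x`).

`cyc_of_cyclic`: let `P` be generated by `q`, `|P| = p ^ a`. For `n ∈ N = normalizer P` let `θ n` be the automorphism of `P`
(conjugation). `θ : N → MulAut P` has kernel the centraliser of `P` and `MulAut P` is commutative; put `n q n⁻¹ = q ^ k(n)`, so
`k(n)` is a unit modulo `p ^ a` and, if `a ≥ 1`, `κ n = k(n)` modulo `p` is a homomorphism `N → (ZMod p)ˣ`. If `κ n = 1` then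
`k(n) ≡ 1` mod `p`, so `k(n) ^ (p ^ (a-1)) ≡ 1` mod `p ^ a`, `(θ n) ^ (p ^ (a-1)) = 1`; but `(θ n) ^ m = 1` for `m` the index of
`P` in `N` (`n ^ m ∈ P` centralises `P`, as `P` is commutative), which is prime to `p`; so `θ n = 1`, `n` centralises `P`. The
image of `κ` is cyclic (`(ZMod p)ˣ` is cyclic); take `t ∈ N` with `κ t` a generator: for `x ∈ N`, `κ x = (κ t) ^ k`, so
`t ^ (-k) * x` centralises `P`. (`a = 0`: everything centralises `P`.)

`cyc_of_card_four`: `p = 2`. If `P` is cyclic use `cyc_of_cyclic`. Otherwise `P` has exponent two and is commutative, and `N/C(P)`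
(of odd order, since `P ≤ C(P)`) acts faithfully on the three involutions of `P`. If `N` centralises `P` take `t = 1`.
Otherwise take `t ∈ N` not centralising `P`; `t` permutes the three involutions `a, b, ab` and by the odd order its
permutation is a 3-cycle; so is that of any `x ∈ N` not centralising `P`, and then one of `t⁻¹ x`, `t x` centralises
`P`.
-/

set_option autoImplicit false

namespace Pool.Agent.NGP

open scoped Classical
open Pool.Agent.CTab

variable {G : Type} [Group G] [Fintype G]

theorem faith_of_comm {P : Subgroup G} (h : ∀ x ∈ P, ∀ y ∈ P, x * y = y * x) : FaithZ P := by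
  intro x hx hz
  refine ⟨1, P.one_mem, x, ?_, (one_mul x).symm⟩
  rw [Subgroup.mem_centralizer_iff]
  intro y hy
  exact (hz y hy (Subgroup.mem_centralizer_iff.mpr (fun z hz' => h z hz' y hy))).symm

theorem Cyc_range {p : ℕ} [Fact p.Prime] (P : Sylow p G)
    (hc : ∀ x ∈ (P : Subgroup G), ∀ y ∈ (P : Subgroup G), x * y = y * x) :
    ¬ p ∣ Nat.card (P : Subgroup G).normalizerMonoidHom.range := by
  have hle : (P : Subgroup G) ≤ Subgroup.centralizer ((P : Subgroup G) : Set G) := fun x hx =>
    Subgroup.mem_centralizer_iff.mpr (fun y hy => hc y hy x hx)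
  have h1 : Nat.card (P : Subgroup G).normalizerMonoidHom.range =
      (Subgroup.centralizer ((P : Subgroup G) : Set G)).relIndex
        (Subgroup.normalizer ((P : Subgroup G) : Set G)) := by
    rw [← Subgroup.index_ker, Subgroup.normalizerMonoidHom_ker, Subgroup.relIndex]
  rw [h1]
  intro h
  apply P.not_dvd_index
  exact h.trans ((Subgroup.relIndex_dvd_of_le_left _ hle).trans
    (Subgroup.relIndex_dvd_index_of_le P.le_normalizer))

theorem Cyc_of_range (P : Subgroup G) (h : IsCyclic P.normalizerMonoidHom.range) : CycAut P := by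
  obtain ⟨⟨g, hg⟩, hgen⟩ := h.exists_generator
  obtain ⟨t, rfl⟩ := MonoidHom.mem_range.mp hg
  refine ⟨t, t.2, fun x hx => ?_⟩
  obtain ⟨k, hk⟩ := Subgroup.mem_zpowers_iff.mp (hgen ⟨P.normalizerMonoidHom ⟨x, hx⟩, ⟨_, rfl⟩⟩)
  have hk2 : (P.normalizerMonoidHom t) ^ k = P.normalizerMonoidHom ⟨x, hx⟩ := by
    have h3 := congrArg Subtype.val hk
    simpa using h3
  have h1 : t ^ (-k) * ⟨x, hx⟩ ∈ P.normalizerMonoidHom.ker := by
    rw [MonoidHom.mem_ker, map_mul, map_zpow, ← hk2]
    group
  rw [Subgroup.normalizerMonoidHom_ker, Subgroup.mem_subgroupOf] at h1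
  refine ⟨k, 1, P.one_mem, (t : G) ^ (-k) * x, ?_, by group⟩
  simpa using h1

theorem cyc_of_cyclic {p : ℕ} [Fact p.Prime] (P : Sylow p G) (h : IsCyclic (P : Subgroup G)) :
    CycAut (P : Subgroup G) := by
  have hp : p.Prime := Fact.out
  have hcomm : ∀ x ∈ (P : Subgroup G), ∀ y ∈ (P : Subgroup G), x * y = y * x := by
    intro x hx y hy
    letI : CommGroup (P : Subgroup G) := IsCyclic.commGroup
    have h1 : (⟨x, hx⟩ : (P : Subgroup G)) * ⟨y, hy⟩ = ⟨y, hy⟩ * ⟨x, hx⟩ := mul_comm _ _
    exact congrArg Subtype.val h1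
  have hR := Cyc_range P hcomm
  apply Cyc_of_range
  obtain ⟨a, ha⟩ := P.2.exists_card_eq
  rcases Nat.eq_zero_or_pos a with h0 | h0
  · have h1 : Nat.card (MulAut (P : Subgroup G)) = 1 := by
      rw [IsCyclic.card_mulAut]
      have : Nat.card (P : Subgroup G) = 1 := by
        rw [ha, h0, pow_zero]
      rw [this, Nat.totient_one]
    have h2 : Subsingleton (MulAut (P : Subgroup G)) :=
      (Nat.card_eq_one_iff_unique.mp h1).1
    exact isCyclic_of_subsingleton
  · set m := Nat.card (P : Subgroup G) with hm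
    have ha' : m = p ^ a := ha
    have hm0 : NeZero m := ⟨by rw [ha']; exact pow_ne_zero _ hp.ne_zero⟩
    have hpm : p ∣ m := by
      rw [ha']
      exact dvd_pow_self p (by omega)
    let e : MulAut (P : Subgroup G) ≃* (ZMod m)ˣ := IsCyclic.mulAutMulEquiv (P : Subgroup G)
    let R := (P : Subgroup G).normalizerMonoidHom.range
    let g : R →* (ZMod p)ˣ := ((ZMod.unitsMap hpm).comp e.toMonoidHom).comp R.subtype
    have hinj : Function.Injective g := by
      rw [injective_iff_map_eq_one]
      intro v hv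
      have hv1 : ZMod.unitsMap hpm (e (v : MulAut (P : Subgroup G))) = 1 := hv
      set w : (ZMod m)ˣ := e (v : MulAut (P : Subgroup G)) with hw
      have h1 : ((p : ℕ) : ZMod m) ∣ (w : ZMod m) - 1 := by
        have h2 := congrArg Units.val hv1
        rw [ZMod.unitsMap_val, Units.val_one] at h2
        have h3 : ((w : ZMod m).val : ZMod m) = (w : ZMod m) := ZMod.natCast_zmod_val _
        rw [← h3, ZMod.cast_natCast hpm] at h2
        have h4 : (((w : ZMod m).val : ℤ) : ZMod p) = ((1 : ℤ) : ZMod p) := by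
          push_cast
          exact h2
        rw [ZMod.intCast_eq_intCast_iff_dvd_sub] at h4
        obtain ⟨c, hc⟩ := h4
        refine ⟨((-c : ℤ) : ZMod m), ?_⟩
        have h5 : ((w : ZMod m).val : ℤ) - 1 = (p : ℤ) * (-c) := by linarith
        have h6 := congrArg (fun z : ℤ => (z : ZMod m)) h5
        push_cast at h6
        rw [h3] at h6
        push_cast
        exact h6
      have h2 := dvd_sub_pow_of_dvd_sub h1 (a - 1)
      have h3 : ((p : ZMod m)) ^ (a - 1 + 1) = 0 := by
        have e1 : a - 1 + 1 = a := by omega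
        rw [e1]
        have e2 : ((p ^ a : ℕ) : ZMod m) = 0 := by
          rw [← ha']
          exact ZMod.natCast_self m
        push_cast at e2
        exact e2
      rw [h3, zero_dvd_iff, one_pow, sub_eq_zero] at h2
      have h4 : w ^ p ^ (a - 1) = 1 := by
        apply Units.ext
        push_cast
        exact h2
      have h5 : (v : MulAut (P : Subgroup G)) ^ p ^ (a - 1) = 1 := by
        apply e.injective
        rw [map_pow, map_one]
        exact h4
      have h6 : v ^ p ^ (a - 1) = 1 := by
        apply Subtype.ext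
        simpa using h5
      have h7 : v ^ Nat.card R = 1 := pow_card_eq_one'
      have h8 : orderOf v ∣ p ^ (a - 1) := orderOf_dvd_of_pow_eq_one h6
      have h9 : orderOf v ∣ Nat.card R := orderOf_dvd_of_pow_eq_one h7
      have h10 : Nat.Coprime (p ^ (a - 1)) (Nat.card R) :=
        Nat.Coprime.pow_left _ ((Nat.Prime.coprime_iff_not_dvd hp).mpr hR)
      exact orderOf_eq_one_iff.mp (Nat.eq_one_of_dvd_coprimes h10 h8 h9)
    exact isCyclic_of_injective g hinj

/-- the action of the automorphisms on the nontrivial elements -/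
def Cyc_toPerm (H : Type) [Group H] : MulAut H →* Equiv.Perm {x : H // x ≠ 1} where
  toFun φ := φ.toEquiv.subtypeEquiv (fun x => by simp)
  map_one' := by
    ext x
    rfl
  map_mul' := by
    intro φ ψ
    ext x
    rfl

theorem Cyc_toPerm_inj (H : Type) [Group H] : Function.Injective (Cyc_toPerm H) := by
  intro φ ψ h
  ext x
  by_cases hx : x = 1
  · rw [hx, map_one, map_one]
  · have h1 := congrArg (fun f : Equiv.Perm {x : H // x ≠ 1} => ((f ⟨x, hx⟩ : {x : H // x ≠ 1}) : H)) h
    exact h1

theorem cyc_of_card_four (P : Sylow 2 G) (h : Nat.card (P : Subgroup G) = 4) :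
    CycAut (P : Subgroup G) := by
  have hcomm : ∀ x ∈ (P : Subgroup G), ∀ y ∈ (P : Subgroup G), x * y = y * x := by
    intro x hx y hy
    have h1 : Nat.card (P : Subgroup G) = 2 ^ 2 := by
      rw [h]
      norm_num
    letI : CommGroup (P : Subgroup G) := IsPGroup.commGroupOfCardEqPrimeSq h1
    have h2 : (⟨x, hx⟩ : (P : Subgroup G)) * ⟨y, hy⟩ = ⟨y, hy⟩ * ⟨x, hx⟩ := mul_comm _ _
    exact congrArg Subtype.val h2
  have hR := Cyc_range P hcomm
  apply Cyc_of_range
  have h1 : Nat.card (P : Subgroup G).normalizerMonoidHom.range ∣ 6 := by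
    have h2 : Nat.card (P : Subgroup G).normalizerMonoidHom.range ∣
        Nat.card (MulAut (P : Subgroup G)) := Subgroup.card_subgroup_dvd_card _
    have h3 : Nat.card (MulAut (P : Subgroup G)) ∣
        Nat.card (Equiv.Perm {x : (P : Subgroup G) // x ≠ 1}) :=
      Subgroup.card_dvd_of_injective _ (Cyc_toPerm_inj (P : Subgroup G))
    have h4 : Nat.card {x : (P : Subgroup G) // x ≠ 1} = 3 := by
      rw [Nat.card_eq_fintype_card, Fintype.card_subtype_compl, ← Nat.card_eq_fintype_card, h]
      simp
    rw [Nat.card_perm, h4] at h3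
    exact h2.trans h3
  have h2 : Nat.card (P : Subgroup G).normalizerMonoidHom.range = 1 ∨
      Nat.card (P : Subgroup G).normalizerMonoidHom.range = 3 := by
    have h3 := Nat.le_of_dvd (by norm_num) h1
    interval_cases (Nat.card (P : Subgroup G).normalizerMonoidHom.range) <;> omega
  rcases h2 with h2 | h2
  · have := (Nat.card_eq_one_iff_unique.mp h2).1
    exact isCyclic_of_subsingleton
  · have : Fact (Nat.Prime 3) := ⟨by norm_num⟩
    exact isCyclic_of_prime_card (p := 3) h2

end Pool.Agent.NGP
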