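import Pool.Agent.NGP.Defs
import Pool.Agent.NGP.Pw
import Pool.Agent.CTab.V00
import Pool.Agent.CTab.V01
import Pool.Agent.CTab.B01
import Pool.Agent.CTab.B02
import Pool.Agent.CTab.B06

/-!
Power maps prime to the group order are visible.

`isConj_of_eq`: if all irreducible characters agree on `x` and `y` then `col_orth` for `(x, y)` and for `(y, y)` have the same
left side, the second count is positive (it contains `1`), so some `a` has `a x a⁻¹ = y`.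

`rel_pow`: let `ζ = exp(2 π i / |G|)` (`Complex.isPrimitiveRoot_exp`), `|G| = |G'|` (`TabIso.card`). Take `g₂` with
`Rel σ g₂ (h ^ k)`. For irreducible `χ` of `G` let `ψ = tr σ χ` (irreducible, `TabIso.irr`), `χ g = ψ h` and `χ g₂ = ψ (h ^ k)`
(`tr_apply`). By `exists_poly` `χ (g ^ j) = f₁(ζ ^ j)`, `ψ (h ^ j) = f₂(ζ ^ j)`; `j = 1` gives `f₁(ζ) = f₂(ζ)`, so
`χ (g ^ k) = ψ (h ^ k) = χ g₂` by `poly_eq`. So `g ^ k` and `g₂` are conjugate.

`rel_inv`: `k = |G| - 1` is prime to `|G|` if `|G| ≥ 2`, `g ^ k = g⁻¹` and `h ^ k = h⁻¹`; for `|G| = 1` everything is `1`.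
(Or directly: `χ g⁻¹` is the complex conjugate of `χ g`.)
-/

set_option autoImplicit false

namespace Pool.Agent.NGP

open scoped Classical
open Pool.Agent.CTab

variable {G : Type} [Group G] [Fintype G]

theorem isConj_of_eq {x y : G} (h : ∀ χ, IsIr (⊤ : Subgroup G) χ → χ x = χ y) : IsConj x y := by
  have h1 := col_orth (A := (⊤ : Subgroup G)) (Subgroup.mem_top x) (Subgroup.mem_top y)
  have h2 := col_orth (A := (⊤ : Subgroup G)) (Subgroup.mem_top y) (Subgroup.mem_top y)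
  have h3 : ∑ χ ∈ irr (⊤ : Subgroup G), χ x * (starRingEnd ℂ) (χ y) =
      ∑ χ ∈ irr (⊤ : Subgroup G), χ y * (starRingEnd ℂ) (χ y) :=
    Finset.sum_congr rfl fun χ hχ => by rw [h χ (mem_irr.1 hχ)]
  rw [h1, h2] at h3
  have h4 : Nat.card {a : G // a ∈ (⊤ : Subgroup G) ∧ a * x * a⁻¹ = y} =
      Nat.card {a : G // a ∈ (⊤ : Subgroup G) ∧ a * y * a⁻¹ = y} := by exact_mod_cast h3
  have h5 : 0 < Nat.card {a : G // a ∈ (⊤ : Subgroup G) ∧ a * y * a⁻¹ = y} := by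
    have : Nonempty {a : G // a ∈ (⊤ : Subgroup G) ∧ a * y * a⁻¹ = y} :=
      ⟨⟨1, Subgroup.mem_top 1, by simp⟩⟩
    exact Nat.card_pos
  rw [← h4] at h5
  obtain ⟨a, _, ha⟩ := (Nat.card_pos_iff.1 h5).1
  exact isConj_iff.2 ⟨a, ha⟩

theorem rel_pow {G' : Type} [Group G'] [Fintype G'] {σ : ConjClasses G ≃ ConjClasses G'}
    (h : TabIso σ) {g : G} {g' : G'} (hr : Rel σ g g') {k : ℕ} (hk : Nat.Coprime k (Nat.card G)) :
    Rel σ (g ^ k) (g' ^ k) := by
  have hn : 0 < Nat.card G := Nat.card_pos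
  have hζ := Complex.isPrimitiveRoot_exp (Nat.card G) hn.ne'
  obtain ⟨g₂, hg₂⟩ := (rel_exists σ).2 (g' ^ k)
  have hc : IsConj (g ^ k) g₂ := by
    refine isConj_of_eq fun χ hχ => ?_
    have hψ := h.irr.1 χ hχ
    have e1 := tr_apply hχ.isCh.cls hr
    have e2 := tr_apply hχ.isCh.cls hg₂
    obtain ⟨f₁, hf₁⟩ := exists_poly hχ.isCh g hζ
    have hζ2 : IsPrimitiveRoot (Complex.exp (2 * Real.pi * Complex.I / (Nat.card G : ℂ)))
        (Nat.card G') := by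
      rw [← h.card]
      exact hζ
    obtain ⟨f₂, hf₂⟩ := exists_poly hψ.isCh g' hζ2
    have e3 := hf₁ 1
    have e4 := hf₂ 1
    rw [pow_one, pow_one] at e3 e4
    have e5 := poly_eq hn hζ (e3.symm.trans (e1.symm.trans e4)) hk
    rw [hf₁ k, e5, ← hf₂ k, e2]
  unfold CTab.Rel
  rw [(ConjClasses.mk_eq_mk_iff_isConj).2 hc]
  exact hg₂

theorem rel_inv {G' : Type} [Group G'] [Fintype G'] {σ : ConjClasses G ≃ ConjClasses G'}
    (h : TabIso σ) {g : G} {g' : G'} (hr : Rel σ g g') : Rel σ g⁻¹ g'⁻¹ := by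
  obtain ⟨g₂, hg₂⟩ := (rel_exists σ).2 g'⁻¹
  have hc : IsConj g⁻¹ g₂ := by
    refine isConj_of_eq fun χ hχ => ?_
    have hψ := h.irr.1 χ hχ
    have e1 := tr_apply hχ.isCh.cls hr
    have e2 := tr_apply hχ.isCh.cls hg₂
    rw [← hχ.isCh.conj, ← e1, hψ.isCh.conj, e2]
  unfold CTab.Rel
  rw [(ConjClasses.mk_eq_mk_iff_isConj).2 hc]
  exact hg₂

end Pool.Agent.NGP
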