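import Pool.Agent.NGP.Defs
import Pool.Agent.NGP.PowMap
import Pool.Agent.CTab.V01
import Pool.Agent.CTab.V05

/-!
Cyclicity of a Sylow subgroup is visible. Let `P` be generated by `x`, of order `p ^ a`. `|Q| = p ^ a` too (`TabIso.card`). If
`a ≤ 1` then `Q` is cyclic. Let `a ≥ 2`, and let `h` be with `Rel σ x h`. For a prime `q ≠ p` the order of `x` is not divisible
by `q`, so neither is the order of `h` (`TabIso.p_regular`): `h` is a `p`-element, conjugate to an element of `Q`. If its order is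
`p ^ a` then `Q` is cyclic. Otherwise `h ^ (p ^ (a-1)) = 1`. Let `|G| = p ^ a * m` with `m` prime to `p` and choose (CRT) `k` with
`k ≡ 1 + p ^ (a-1)` mod `p ^ a` and `k ≡ 1` mod `m`; `k` is prime to `|G|`. `h ^ k = h`, so `Rel σ (x ^ k) h` by `rel_pow` and
`x ^ k` is conjugate to `x`: `g x g⁻¹ = x ^ k`. So `g` normalises `P`, and `g ^ j x g ^ (-j) = x ^ (k ^ j)`. For `j` the index of
`P` in its normaliser, `g ^ j ∈ P` commutes with `x`, so `k ^ j ≡ 1` mod `p ^ a`; also
`k ^ p ≡ (1 + p ^ (a-1)) ^ p ≡ 1` mod `p ^ a` (as `a ≥ 2`), and `j` is prime to `p`; so `k ≡ 1` mod `p ^ a`, a contradiction.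
-/

set_option autoImplicit false

namespace Pool.Agent.NGP

open scoped Classical
open Pool.Agent.CTab

private theorem CycVis_pow {R : Type} [CommRing R] {y : R} (hy : y * y = 0) (n : ℕ) :
    (1 + y) ^ n = 1 + n * y := by
  induction n with
  | zero => simp
  | succ n ih =>
    rw [pow_succ, ih]
    push_cast
    linear_combination (n : R) * hy

private theorem CycVis_conj {G : Type} [Group G] {c x : G} {k : ℕ} (h : c * x * c⁻¹ = x ^ k)
    (j : ℕ) : c ^ j * x * (c ^ j)⁻¹ = x ^ (k ^ j) := by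
  induction j with
  | zero => simp
  | succ j ih =>
    have e : c ^ (j + 1) * x * (c ^ (j + 1))⁻¹ = c * (c ^ j * x * (c ^ j)⁻¹) * c⁻¹ := by
      rw [pow_succ']
      group
    rw [e, ih, ← conj_pow, h, ← pow_mul, pow_succ']

private theorem CycVis_sylow {p : ℕ} [Fact p.Prime] {G : Type} [Group G] [Fintype G]
    (Q : Sylow p G) {h : G} (ho : orderOf h = Nat.card (Q : Subgroup G)) :
    IsCyclic (Q : Subgroup G) := by
  have hpg : IsPGroup p (Subgroup.zpowers h) := by
    obtain ⟨n, hn⟩ := IsPGroup.iff_card.1 Q.isPGroup'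
    refine IsPGroup.of_card (n := n) ?_
    rw [Nat.card_zpowers, ho, hn]
  obtain ⟨R, hR⟩ := hpg.exists_le_sylow
  have hc : Nat.card (R : Subgroup G) = Nat.card (Q : Subgroup G) := by
    rw [Sylow.card_eq_multiplicity, Sylow.card_eq_multiplicity]
  have he : Subgroup.zpowers h = (R : Subgroup G) := by
    apply Subgroup.eq_of_le_of_card_ge hR
    rw [Nat.card_zpowers, ho, hc]
  have hcyc : IsCyclic (R : Subgroup G) := by
    rw [← he]
    infer_instance
  exact isCyclic_of_surjective (Sylow.equiv R Q) (Sylow.equiv R Q).surjective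

theorem cyclic_visible {p : ℕ} [Fact p.Prime] {G G' : Type} [Group G] [Fintype G] [Group G']
    [Fintype G'] {σ : ConjClasses G ≃ ConjClasses G'} (hσ : TabIso σ) (P : Sylow p G)
    (Q : Sylow p G') (h : IsCyclic (P : Subgroup G)) : IsCyclic (Q : Subgroup G') := by
  have hp : p.Prime := Fact.out
  obtain ⟨⟨x, hxP⟩, hx⟩ := h.exists_generator
  have hgen : ∀ y ∈ (P : Subgroup G), y ∈ Subgroup.zpowers x := by
    intro y hy
    obtain ⟨n, hn⟩ := Subgroup.mem_zpowers_iff.1 (hx ⟨y, hy⟩)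
    refine Subgroup.mem_zpowers_iff.2 ⟨n, ?_⟩
    have := congrArg Subtype.val hn
    simpa using this
  have hzP : Subgroup.zpowers x = (P : Subgroup G) := by
    apply le_antisymm
    · rw [Subgroup.zpowers_le]
      exact hxP
    · exact hgen
  have hcG := hσ.card
  have hcP : Nat.card (P : Subgroup G) = p ^ (Nat.card G).factorization p :=
    Sylow.card_eq_multiplicity P
  have hcQ : Nat.card (Q : Subgroup G') = p ^ (Nat.card G).factorization p := by
    rw [hcG]
    exact Sylow.card_eq_multiplicity Q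
  obtain ⟨a, ha⟩ : ∃ a, a = (Nat.card G).factorization p := ⟨_, rfl⟩
  rw [← ha] at hcP hcQ
  have hox : orderOf x = p ^ a := by
    rw [← Nat.card_zpowers, hzP, hcP]
  have hG0 : Nat.card G ≠ 0 := Nat.card_pos.ne'
  obtain ⟨m, hm⟩ : p ^ a ∣ Nat.card G := by
    rw [ha]
    exact Nat.ordProj_dvd _ _
  have hmp : Nat.Coprime p m := by
    have h1 := Nat.coprime_ordCompl hp hG0
    rw [← ha] at h1
    have h2 : Nat.card G / p ^ a = m := by
      rw [hm]
      exact Nat.mul_div_cancel_left _ (pow_pos hp.pos a)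
    rwa [h2] at h1
  rcases Nat.lt_or_ge a 2 with ha2 | ha2
  · interval_cases a
    · rw [pow_zero] at hcQ
      have : Subsingleton (Q : Subgroup G') := (Nat.card_eq_one_iff_unique.1 hcQ).1
      infer_instance
    · rw [pow_one] at hcQ
      exact isCyclic_of_prime_card hcQ
  obtain ⟨g', hr⟩ := (rel_exists σ).1 x
  obtain ⟨b, hb⟩ : ∃ b, orderOf g' = p ^ b := by
    have h1 : ∀ {q : ℕ}, q.Prime → q ∣ orderOf g' → q = p := by
      intro q hq hqd
      have h2 := (hσ.p_regular hq hr).2 hqd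
      rw [hox] at h2
      exact (Nat.prime_dvd_prime_iff_eq hq hp).1 (hq.dvd_of_dvd_pow h2)
    exact ⟨_, Nat.eq_prime_pow_of_unique_prime_dvd (orderOf_pos g').ne' h1⟩
  have hbd : p ^ b ∣ p ^ a := by
    have h1 : orderOf g' ∣ Nat.card G' := orderOf_dvd_natCard g'
    rw [hb, ← hcG, hm] at h1
    exact (Nat.Coprime.pow_left b hmp).dvd_of_dvd_mul_right h1
  have hba : b ≤ a := (Nat.pow_dvd_pow_iff_le_right hp.one_lt).1 hbd
  rcases hba.lt_or_eq with hlt | heq
  swap
  · exact CycVis_sylow Q (by rw [hb, heq, hcQ])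
  exfalso
  obtain ⟨k, hk1, hk2⟩ := Nat.chineseRemainder (Nat.Coprime.pow_left a hmp) (1 + p ^ (a - 1)) 1
  obtain ⟨a', rfl⟩ : ∃ a', a = a' + 2 := ⟨a - 2, by omega⟩
  have ea : a' + 2 - 1 = a' + 1 := by omega
  rw [ea] at hk1
  have hkb : k ≡ 1 [MOD p ^ (a' + 1)] := by
    have h1 : k ≡ 1 + p ^ (a' + 1) [MOD p ^ (a' + 1)] :=
      hk1.of_dvd (pow_dvd_pow p (by omega))
    have h2 : 1 + p ^ (a' + 1) ≡ 1 [MOD p ^ (a' + 1)] := by
      simp [Nat.ModEq]
    exact h1.trans h2
  have hkp : Nat.Coprime k p := by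
    have h1 : k ≡ 1 [MOD p] := hkb.of_dvd (dvd_pow_self p (by omega))
    rw [Nat.coprime_comm, Nat.Prime.coprime_iff_not_dvd hp]
    intro hd
    have h2 : (1 : ℕ) ≡ 0 [MOD p] := h1.symm.trans ((Nat.modEq_zero_iff_dvd).2 hd)
    exact hp.one_lt.ne' (Nat.dvd_one.1 ((Nat.modEq_zero_iff_dvd).1 h2))
  have hkm : Nat.Coprime k m := by
    have h1 := hk2.gcd_eq
    unfold Nat.Coprime
    rw [h1]
    simp
  have hkG : Nat.Coprime k (Nat.card G) := by
    rw [hm]
    exact Nat.Coprime.mul_right (Nat.Coprime.pow_right _ hkp) hkm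
  have hgk : g' ^ k = g' := by
    have h1 : k ≡ 1 [MOD orderOf g'] := by
      rw [hb]
      exact hkb.of_dvd (pow_dvd_pow p (by omega))
    have h2 := (pow_eq_pow_iff_modEq (x := g')).2 h1
    rwa [pow_one] at h2
  have hr2 := rel_pow hσ hr hkG
  rw [hgk] at hr2
  have hcj : IsConj x (x ^ k) := by
    apply ConjClasses.mk_eq_mk_iff_isConj.1
    apply σ.injective
    unfold CTab.Rel at hr hr2
    rw [hr, hr2]
  obtain ⟨c, hc⟩ := isConj_iff.1 hcj
  have hcm := CycVis_conj hc m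
  have hcN : c ∈ Subgroup.normalizer ((P : Subgroup G) : Set G) := by
    have h1 : (P : Subgroup G).map (MulAut.conj c).toMonoidHom ≤ (P : Subgroup G) := by
      rw [← hzP, MonoidHom.map_zpowers, Subgroup.zpowers_le]
      have h2 : (MulAut.conj c).toMonoidHom x = x ^ k := by
        rw [← hc]
        rfl
      rw [h2]
      exact Subgroup.npow_mem_zpowers x k
    have h2 : (P : Subgroup G).map (MulAut.conj c).toMonoidHom = (P : Subgroup G) := by
      apply Subgroup.eq_of_le_of_card_ge h1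
      rw [Subgroup.card_map_of_injective (MulAut.conj c).injective]
    rw [Subgroup.mem_normalizer_iff]
    intro y
    constructor
    · intro hy
      apply h1
      exact ⟨y, hy, rfl⟩
    · intro hy
      rw [← SetLike.mem_coe, SetLike.mem_coe, ← h2] at hy
      obtain ⟨z, hz, hz2⟩ := hy
      have h3 : c * z * c⁻¹ = c * y * c⁻¹ := hz2
      have h4 : z = y := by
        have := mul_right_cancel h3
        exact mul_left_cancel this
      rw [← h4]
      exact hz
  have hcmP : c ^ m ∈ (P : Subgroup G) := by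
    have h1 : IsPGroup p (Subgroup.zpowers (c ^ m)) := by
      have h2 : orderOf (c ^ m) ∣ p ^ (a' + 2) := by
        apply orderOf_dvd_of_pow_eq_one
        rw [← pow_mul, mul_comm m, ← hm]
        exact pow_card_eq_one'
      obtain ⟨e, _, he⟩ := (Nat.dvd_prime_pow hp).1 h2
      refine IsPGroup.of_card (n := e) ?_
      rw [Nat.card_zpowers, he]
    have h2 := IsPGroup.inf_normalizer_sylow h1 P
    have h3 : c ^ m ∈ Subgroup.zpowers (c ^ m) ⊓
        Subgroup.normalizer ((P : Subgroup G) : Set G) :=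
      ⟨Subgroup.mem_zpowers _, Subgroup.pow_mem _ hcN m⟩
    have h4 : c ^ m ∈ Subgroup.zpowers (c ^ m) ⊓ (P : Subgroup G) := by
      rw [← h2]
      exact h3
    exact h4.2
  have hcomm : c ^ m * x * (c ^ m)⁻¹ = x := by
    obtain ⟨n, hn⟩ := Subgroup.mem_zpowers_iff.1 (hgen _ hcmP)
    rw [← hn]
    group
  rw [hcomm] at hcm
  have hkm1 : k ^ m ≡ 1 [MOD p ^ (a' + 2)] := by
    rw [← hox]
    apply (pow_eq_pow_iff_modEq (x := x)).1
    rw [← hcm, pow_one]
  have z1 : ((k : ℕ) : ZMod (p ^ (a' + 2))) ^ m = 1 := by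
    have := (ZMod.natCast_eq_natCast_iff _ _ _).2 hkm1
    simpa using this
  have z2 : ((k : ℕ) : ZMod (p ^ (a' + 2))) = 1 + ((p ^ (a' + 1) : ℕ) : ZMod (p ^ (a' + 2))) := by
    have := (ZMod.natCast_eq_natCast_iff _ _ _).2 hk1
    rw [this]
    push_cast
    ring
  have z3 : ((p ^ (a' + 1) : ℕ) : ZMod (p ^ (a' + 2))) *
      ((p ^ (a' + 1) : ℕ) : ZMod (p ^ (a' + 2))) = 0 := by
    rw [← Nat.cast_mul, ZMod.natCast_eq_zero_iff, ← pow_add]
    exact pow_dvd_pow p (by omega)
  have z4 : ((p : ℕ) : ZMod (p ^ (a' + 2))) * ((p ^ (a' + 1) : ℕ) : ZMod (p ^ (a' + 2))) = 0 := by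
    rw [← Nat.cast_mul, ZMod.natCast_eq_zero_iff, ← pow_succ']
  have z5 : ((k : ℕ) : ZMod (p ^ (a' + 2))) ^ p = 1 := by
    rw [z2, CycVis_pow z3, z4, add_zero]
  have z6 : orderOf ((k : ℕ) : ZMod (p ^ (a' + 2))) ∣ 1 := by
    have h1 := orderOf_dvd_of_pow_eq_one z1
    have h2 := orderOf_dvd_of_pow_eq_one z5
    have h3 := Nat.dvd_gcd h2 h1
    rwa [hmp] at h3
  have z7 : ((k : ℕ) : ZMod (p ^ (a' + 2))) = 1 := orderOf_eq_one_iff.1 (Nat.dvd_one.1 z6)
  rw [z2] at z7
  have z8 : ((p ^ (a' + 1) : ℕ) : ZMod (p ^ (a' + 2))) = 0 := by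
    simpa using z7
  rw [ZMod.natCast_eq_zero_iff] at z8
  have := (Nat.pow_dvd_pow_iff_le_right hp.one_lt).1 z8
  omega

end Pool.Agent.NGP
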