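import Pool.Agent.CTab.Defs

/-!
# Definitions for NGP (abelianness of N_G(P)/P and character tables)
-/

set_option autoImplicit false

namespace Pool.Agent.NGP

open scoped Classical
open Pool.Agent.CTab

/-- number of factorisations of `z` as a product of a conjugate of `g₁` and a conjugate of `g₂` -/
noncomputable def NN {G : Type} [Group G] (g₁ g₂ z : G) : ℕ :=
  Nat.card {x : G // IsConj g₁ x ∧ IsConj g₂ (x⁻¹ * z)}

/-- `N_G(P)/P` is abelian -/
def Ab {G : Type} [Group G] (P : Subgroup G) : Prop :=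
  ∀ a ∈ Subgroup.normalizer (P : Set G), ∀ b ∈ Subgroup.normalizer (P : Set G),
    a * b * a⁻¹ * b⁻¹ ∈ P

/-- `N_G(P)` is generated by one element modulo `P C_G(P)` -/
def CycAut {G : Type} [Group G] (P : Subgroup G) : Prop :=
  ∃ t ∈ Subgroup.normalizer (P : Set G), ∀ x ∈ Subgroup.normalizer (P : Set G),
    ∃ k : ℤ, ∃ u ∈ P, ∃ c ∈ Subgroup.centralizer (P : Set G), x = t ^ k * u * c

/-- an element of `N_G(P)` that centralises `Z(P)` is in `P C_G(P)` -/
def FaithZ {G : Type} [Group G] (P : Subgroup G) : Prop :=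
  ∀ x ∈ Subgroup.normalizer (P : Set G),
    (∀ z ∈ P, z ∈ Subgroup.centralizer (P : Set G) → x * z = z * x) →
      ∃ u ∈ P, ∃ c ∈ Subgroup.centralizer (P : Set G), x = u * c

end Pool.Agent.NGP
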