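import Pool.Agent.NGP.Defs
import Pool.Agent.NGP.Count
import Pool.Agent.CTab.V00
import Pool.Agent.CTab.V01

/-!
Burnside fusion and classes of size prime to `p`.

`fuse`: `Sylow.conj_eq_normalizer_conj_of_mem_centralizer` of Mathlib.

`not_dvd_class`: the size of the class of `z` is the index of the centraliser of `z` (class = orbit of the conjugation
action), which contains `P`, so it divides the index of the Sylow subgroup `P`, which is prime to `p`.

`exists_conj`: `S` = the class of `g` is stable under conjugation; by `card_modEq` of Count its size is congruent to the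
number of its elements in the centraliser of `P`; if there were none then `p` would divide the size.

`rel_centralizer`: the classes of `x` and `y` have the same size (`TabIso.carrier` of V01), prime to `p` by `not_dvd_class`
for `Q` and `y`; take any `g` with `Rel σ g y` (`rel_exists`) and replace it by a conjugate in the centraliser of `P`
(`exists_conj`).
-/

set_option linter.all false

namespace Pool.Agent.NGP

open scoped Classical
open Pool.Agent.CTab

variable {G : Type} [Group G] [Fintype G]

theorem fuse {p : ℕ} [Fact p.Prime] (P : Sylow p G) {x y : G}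
    (hx : x ∈ Subgroup.centralizer ((P : Subgroup G) : Set G))
    (hy : y ∈ Subgroup.centralizer ((P : Subgroup G) : Set G)) (h : IsConj x y) :
    ∃ n ∈ Subgroup.normalizer ((P : Subgroup G) : Set G), n * x * n⁻¹ = y := by
  obtain ⟨c, hc⟩ := isConj_iff.1 h
  have hc' : (c⁻¹)⁻¹ * x * c⁻¹ = y := by
    rw [inv_inv]
    exact hc
  obtain ⟨n, hn, hn2⟩ := P.conj_eq_normalizer_conj_of_mem_centralizer x c⁻¹ hx (by
    rw [hc']
    exact hy)
  refine ⟨n⁻¹, Subgroup.inv_mem _ hn, ?_⟩
  rw [inv_inv, ← hn2, hc']

private theorem Fuse_orb (z : G) :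
    Nat.card (ConjClasses.mk z).carrier * Nat.card (Subgroup.centralizer ({z} : Set G)) =
      Nat.card G := by
  have h1 : Nat.card (ConjClasses.mk z).carrier =
      (MulAction.stabilizer (ConjAct G) z).index := by
    rw [MulAction.index_stabilizer, ConjAct.orbit_eq_carrier_conjClasses]
    rfl
  have h2 : Nat.card (Subgroup.centralizer ({z} : Set G)) =
      Nat.card (MulAction.stabilizer (ConjAct G) z) :=
    (Subgroup.nat_card_centralizer_nat_card_stabilizer z)
  rw [h1, h2, mul_comm, Subgroup.card_mul_index]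
  rfl

theorem not_dvd_class {p : ℕ} [Fact p.Prime] (P : Sylow p G) {z : G}
    (hz : z ∈ Subgroup.centralizer ((P : Subgroup G) : Set G)) :
    ¬ p ∣ Nat.card (ConjClasses.mk z).carrier := by
  intro hd
  have hle : (P : Subgroup G) ≤ Subgroup.centralizer ({z} : Set G) := by
    intro u hu
    rw [Subgroup.mem_centralizer_iff]
    intro w hw
    rw [Set.mem_singleton_iff] at hw
    rw [hw]
    exact (Subgroup.mem_centralizer_iff.1 hz u hu).symm
  obtain ⟨k, hk⟩ := Subgroup.card_dvd_of_le hle
  have h1 := Fuse_orb z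
  have h2 := Subgroup.card_mul_index (P : Subgroup G)
  rw [hk, ← h2] at h1
  have hpos : 0 < Nat.card (P : Subgroup G) := Nat.card_pos
  have h3 : Nat.card (ConjClasses.mk z).carrier * k = (P : Subgroup G).index := by
    apply Nat.eq_of_mul_eq_mul_left hpos
    rw [← h1]
    ring
  exact P.not_dvd_index (h3 ▸ Dvd.dvd.mul_right hd k)

theorem exists_conj {p : ℕ} [Fact p.Prime] (P : Sylow p G) {g : G}
    (h : ¬ p ∣ Nat.card (ConjClasses.mk g).carrier) :
    ∃ z ∈ Subgroup.centralizer ((P : Subgroup G) : Set G), IsConj g z := by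
  by_contra hcon
  push Not at hcon
  have h1 := card_modEq (P := (P : Subgroup G)) P.isPGroup' (ConjClasses.mk g).carrier (by
    intro u hu x hx
    rw [ConjClasses.mem_carrier_iff_mk_eq] at hx ⊢
    rw [← hx]
    exact (ConjClasses.mk_eq_mk_iff_isConj.2 (isConj_iff.2 ⟨u, rfl⟩)).symm)
  have h2 : Nat.card {x : G // x ∈ (ConjClasses.mk g).carrier ∧
      x ∈ Subgroup.centralizer ((P : Subgroup G) : Set G)} = 0 := by
    rw [Nat.card_eq_zero]
    left
    constructor
    rintro ⟨x, hx1, hx2⟩
    rw [ConjClasses.mem_carrier_iff_mk_eq, ConjClasses.mk_eq_mk_iff_isConj] at hx1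
    exact hcon x hx2 hx1.symm
  rw [h2] at h1
  exact h ((Nat.modEq_zero_iff_dvd).1 h1)

theorem rel_centralizer {p : ℕ} [Fact p.Prime] {G' : Type} [Group G'] [Fintype G']
    {σ : ConjClasses G ≃ ConjClasses G'} (h : TabIso σ) (P : Sylow p G) (Q : Sylow p G') {y : G'}
    (hy : y ∈ Subgroup.centralizer ((Q : Subgroup G') : Set G')) :
    ∃ x ∈ Subgroup.centralizer ((P : Subgroup G) : Set G), Rel σ x y := by
  obtain ⟨g, hg⟩ := (rel_exists σ).2 y
  have h1 : ¬ p ∣ Nat.card (ConjClasses.mk g).carrier := by
    rw [h.carrier, show σ (ConjClasses.mk g) = ConjClasses.mk y from hg]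
    exact not_dvd_class Q hy
  obtain ⟨z, hz, hgz⟩ := exists_conj P h1
  refine ⟨z, hz, ?_⟩
  show σ (ConjClasses.mk z) = ConjClasses.mk y
  rw [← ConjClasses.mk_eq_mk_iff_isConj.2 hgz]
  exact hg

end Pool.Agent.NGP
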