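import Pool.Agent.NGP.Defs

/-!
`p`-parts and `p'`-parts in the centraliser of `P`.

`part_unique`: `s = y⁻¹ a` is in `P` and commutes with `b` and `d`, and `d = s b`. With `m = orderOf b * orderOf d`
(prime to `p`) we get `1 = d ^ m = s ^ m * b ^ m = s ^ m`; the order of `s` is a power of `p`, so `s = 1`.

`exists_parts`: for `g ∈ centralizer P` write `g = g_p g_{p'}` with powers `g_p`, `g_{p'}` of `g` (order `p ^ a * m`, Bezout).
`g_p` is a `p`-element commuting with `P`, so the subgroup generated by `P` and `g_p` is a `p`-group (`P ⊔ zpowers g_p`,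
e.g. `IsPGroup.to_sup_of_normal_right`), hence equal to the Sylow subgroup `P`, and `g_p ∈ P`.

`comm_of_ab`: `n e n⁻¹` is in the centraliser of `P` (`n` normalises `P`), has the order of `e`, and
`z = n e n⁻¹ e⁻¹ ∈ P` by `Ab P` (`e ∈ normalizer P`), `z` is in the centraliser of `P` too. So `1 * (n e n⁻¹) = z * e` and
`part_unique` gives `z = 1`.
-/

set_option autoImplicit false

namespace Pool.Agent.NGP

open scoped Classical
open Pool.Agent.CTab

variable {G : Type} [Group G] [Fintype G]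

theorem part_unique {p : ℕ} (hp : p.Prime) {P : Subgroup G} (hP : IsPGroup p P) {a y b d : G}
    (ha : a ∈ P) (ha' : a ∈ Subgroup.centralizer (P : Set G)) (hy : y ∈ P)
    (hy' : y ∈ Subgroup.centralizer (P : Set G)) (hb : b ∈ Subgroup.centralizer (P : Set G))
    (hd : d ∈ Subgroup.centralizer (P : Set G)) (hb' : ¬ p ∣ orderOf b) (hd' : ¬ p ∣ orderOf d)
    (h : a * b = y * d) : a = y ∧ b = d := by
  have hs : y⁻¹ * a ∈ P := P.mul_mem (P.inv_mem hy) ha
  have hsb : (y⁻¹ * a) * b = d := by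
    rw [mul_assoc, h, inv_mul_cancel_left]
  have hcomm : Commute (y⁻¹ * a) b := by
    have := Subgroup.mem_centralizer_iff.1 hb _ hs
    exact this
  have hm : (y⁻¹ * a) ^ (orderOf b * orderOf d) = 1 := by
    have h1 : ((y⁻¹ * a) * b) ^ (orderOf b * orderOf d) = 1 := by
      rw [hsb, mul_comm, pow_mul, pow_orderOf_eq_one, one_pow]
    rw [hcomm.mul_pow, pow_mul b, pow_orderOf_eq_one, one_pow, mul_one] at h1
    exact h1
  obtain ⟨k, hk⟩ := hP ⟨_, hs⟩
  have hk' : (y⁻¹ * a) ^ (p ^ k) = 1 := by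
    have := congrArg (Subtype.val) hk
    simpa using this
  have hcop : Nat.Coprime (p ^ k) (orderOf b * orderOf d) := by
    apply Nat.Coprime.pow_left
    rw [hp.coprime_iff_not_dvd, hp.dvd_mul]
    push Not
    exact ⟨hb', hd'⟩
  have h1 : orderOf (y⁻¹ * a) = 1 :=
    Nat.eq_one_of_dvd_coprimes hcop (orderOf_dvd_of_pow_eq_one hk') (orderOf_dvd_of_pow_eq_one hm)
  rw [orderOf_eq_one_iff] at h1
  refine ⟨?_, ?_⟩
  · exact (inv_mul_eq_one.1 h1).symm
  · rw [h1, one_mul] at hsb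
    exact hsb

theorem exists_parts {p : ℕ} (hp : p.Prime) (P : Sylow p G) {g : G}
    (hg : g ∈ Subgroup.centralizer ((P : Subgroup G) : Set G)) :
    ∃ z ∈ (P : Subgroup G), z ∈ Subgroup.centralizer ((P : Subgroup G) : Set G) ∧
      ∃ l ∈ Subgroup.centralizer ((P : Subgroup G) : Set G), ¬ p ∣ orderOf l ∧ g = z * l := by
  have := Fact.mk hp
  obtain ⟨k, m, hm, hkm⟩ := Nat.exists_eq_pow_mul_and_not_dvd (orderOf_pos g).ne' p hp.ne_one
  have hcop : IsCoprime (m : ℤ) ((p ^ k : ℕ) : ℤ) := by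
    rw [Nat.isCoprime_iff_coprime]
    apply Nat.Coprime.symm
    apply Nat.Coprime.pow_left
    rwa [hp.coprime_iff_not_dvd]
  obtain ⟨u, v, huv⟩ := hcop
  have hz : (g ^ (u * (m : ℤ))) ^ (p ^ k) = 1 := by
    rw [← zpow_natCast, ← zpow_mul]
    have : u * (m : ℤ) * ((p ^ k : ℕ) : ℤ) = ((orderOf g : ℕ) : ℤ) * u := by
      rw [hkm]; push_cast; ring
    rw [this, zpow_mul, zpow_natCast, pow_orderOf_eq_one, one_zpow]
  have hl : (g ^ (v * ((p ^ k : ℕ) : ℤ))) ^ m = 1 := by
    rw [← zpow_natCast, ← zpow_mul]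
    have : v * ((p ^ k : ℕ) : ℤ) * (m : ℤ) = ((orderOf g : ℕ) : ℤ) * v := by
      rw [hkm]; push_cast; ring
    rw [this, zpow_mul, zpow_natCast, pow_orderOf_eq_one, one_zpow]
  have hzc : g ^ (u * (m : ℤ)) ∈ Subgroup.centralizer ((P : Subgroup G) : Set G) :=
    Subgroup.zpow_mem _ hg _
  have hzP : g ^ (u * (m : ℤ)) ∈ (P : Subgroup G) := by
    have h1 : IsPGroup p (Subgroup.zpowers (g ^ (u * (m : ℤ)))) := by
      rintro ⟨x, hx⟩
      obtain ⟨j, rfl⟩ := Subgroup.mem_zpowers_iff.1 hx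
      refine ⟨k, ?_⟩
      apply Subtype.ext
      simp only [SubmonoidClass.mk_pow, OneMemClass.coe_one]
      rw [← zpow_natCast, ← zpow_mul _ j, mul_comm j, zpow_mul _ _ j, zpow_natCast, hz, one_zpow]
    have h2 : Subgroup.zpowers (g ^ (u * (m : ℤ))) ≤ Subgroup.normalizer ((P : Subgroup G) : Set G) := by
      rw [Subgroup.zpowers_le]
      exact Subgroup.centralizer_le_normalizer _ hzc
    have h3 : IsPGroup p (Subgroup.zpowers (g ^ (u * (m : ℤ))) ⊔ (P : Subgroup G) : Subgroup G) :=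
      IsPGroup.to_sup_of_normal_right' h1 P.isPGroup' h2
    have h4 := P.is_maximal' h3 le_sup_right
    have h5 : g ^ (u * (m : ℤ)) ∈ (Subgroup.zpowers (g ^ (u * (m : ℤ))) ⊔ (P : Subgroup G) : Subgroup G) :=
      (le_sup_left : Subgroup.zpowers (g ^ (u * (m : ℤ))) ≤ _) (Subgroup.mem_zpowers _)
    rw [h4] at h5
    exact h5
  refine ⟨g ^ (u * (m : ℤ)), hzP, hzc, g ^ (v * ((p ^ k : ℕ) : ℤ)), Subgroup.zpow_mem _ hg _, ?_, ?_⟩
  · intro hd
    exact hm (hd.trans (orderOf_dvd_of_pow_eq_one hl))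
  · rw [← zpow_add, huv, zpow_one]

theorem comm_of_ab {p : ℕ} (hp : p.Prime) {P : Subgroup G} (hP : IsPGroup p P) (hab : Ab P)
    {e n : G} (he : e ∈ Subgroup.centralizer (P : Set G)) (he' : ¬ p ∣ orderOf e)
    (hn : n ∈ Subgroup.normalizer (P : Set G)) : n * e * n⁻¹ = e := by
  have hz : n * e * n⁻¹ * e⁻¹ ∈ P := hab n hn e (Subgroup.centralizer_le_normalizer _ he)
  have hne : n * e * n⁻¹ ∈ Subgroup.centralizer (P : Set G) := by
    rw [Subgroup.mem_centralizer_iff] at he ⊢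
    intro x hx
    have hx' : n⁻¹ * x * n ∈ P := by
      have := (Subgroup.mem_normalizer_iff.1 (Subgroup.inv_mem _ hn) x).1 hx
      simpa using this
    have h1 := he _ hx'
    calc x * (n * e * n⁻¹) = n * ((n⁻¹ * x * n) * e) * n⁻¹ := by group
      _ = n * (e * (n⁻¹ * x * n)) * n⁻¹ := by rw [h1]
      _ = n * e * n⁻¹ * x := by group
  have hzc : n * e * n⁻¹ * e⁻¹ ∈ Subgroup.centralizer (P : Set G) :=
    Subgroup.mul_mem _ hne (Subgroup.inv_mem _ he)
  have hord : ¬ p ∣ orderOf (n * e * n⁻¹) := by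
    have : orderOf (n * e * n⁻¹) = orderOf e := by
      have h := orderOf_injective (MulAut.conj n).toMonoidHom (MulAut.conj n).injective e
      simpa using h
    rwa [this]
  have h := part_unique hp hP (a := 1) (y := n * e * n⁻¹ * e⁻¹) (b := n * e * n⁻¹) (d := e)
    P.one_mem (Subgroup.one_mem _) hz hzc hne he hord he' (by group)
  exact h.2

end Pool.Agent.NGP
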