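import Pool.Agent.NGP.Defs
import Pool.Agent.NGP.CC
import Pool.Agent.CTab.V00
import Pool.Agent.CTab.V01
import Pool.Agent.CTab.B01
import Pool.Agent.CTab.B02

/-!
The structure constants of the class algebra are visible in the character table.

For `g : G` let `δ_g x = 1` if `x` is conjugate to `g` and `0` otherwise, a class function. `conv δ_{g₁} δ_{g₂} z = NN g₁ g₂ z`
(cast to `ℂ`; sum of indicators). If `Rel σ g h` then `tr σ δ_g = δ_h` (`tr_apply`, `rel_exists`, `σ` is injective).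

`tr_conv`: both sides are class functions on `G'`; let `ψ = tr σ χ` be an irreducible character of `G'` (`TabIso.irr`,
every irreducible character of `G'` is of this form). For a class function `f` on `G`: `Σ_{x'} (tr σ f) x' ψ x' = Σ_x f x χ x`
(`TabIso.sum` for `F = f χ`, and `tr σ (f χ) = tr σ f * tr σ χ` is definitional), and `ψ 1 = χ 1` (`TabIso.one`,
`tr_apply`). By `sum_conv` on both sides
`ψ 1 Σ (tr σ (conv f g)) ψ = χ 1 Σ (conv f g) χ = (Σ f χ) (Σ g χ) = (Σ (tr f) ψ) (Σ (tr g) ψ) = ψ 1 Σ (conv (tr f) (tr g)) ψ`;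
divide by `ψ 1 ≠ 0` (`IsIr.deg_dvd` of B12 or `IsCh.deg` of B01) and use `cls_ext` on `G'`.

`NN_eq`: evaluate `tr_conv` for `f = δ_{g₁}`, `g = δ_{g₂}` at `h₃` (`tr_apply` with `Rel σ g₃ h₃`).
-/

set_option autoImplicit false

namespace Pool.Agent.NGP

open scoped Classical
open Pool.Agent.CTab

variable {G : Type} [Group G] [Fintype G]

omit [Fintype G] in
private theorem SC_cls_tr {G' : Type} [Group G'] (σ : ConjClasses G ≃ ConjClasses G')
    (f : G → ℂ) : Cls (⊤ : Subgroup G') (tr σ f) := by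
  refine ⟨fun x hx => absurd trivial hx, fun a _ x => ?_⟩
  unfold tr
  have h1 : ConjClasses.mk (a * x * a⁻¹) = ConjClasses.mk x :=
    ConjClasses.mk_eq_mk_iff_isConj.2 (isConj_iff.2 ⟨a⁻¹, by group⟩)
  rw [h1]

private theorem SC_key {G' : Type} [Group G'] [Fintype G'] {σ : ConjClasses G ≃ ConjClasses G'}
    (h : TabIso σ) {F χ : G → ℂ} (hF : Cls (⊤ : Subgroup G) F) (hχ : Cls (⊤ : Subgroup G) χ) :
    ∑ x', tr σ F x' * tr σ χ x' = ∑ x, F x * χ x := by
  have h1 : ∀ a x, F (a * x * a⁻¹) * χ (a * x * a⁻¹) = F x * χ x := by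
    intro a x
    rw [hF.2 a trivial x, hχ.2 a trivial x]
  exact (h.sum (F := fun x => F x * χ x) h1).symm

private theorem SC_one_ne {ψ : G → ℂ} (hψ : IsIr (⊤ : Subgroup G) ψ) : ψ 1 ≠ 0 := by
  intro h0
  obtain ⟨m, hm, hm0⟩ := hψ.isCh.deg
  have h1 : m = 0 := by
    rw [h0] at hm
    exact_mod_cast hm.symm
  have h2 := (isIr_iff.1 hψ).2
  rw [hm0 h1] at h2
  unfold ip at h2
  simp at h2

theorem tr_conv {G' : Type} [Group G'] [Fintype G'] {σ : ConjClasses G ≃ ConjClasses G'}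
    (h : TabIso σ) {f g : G → ℂ} (hf : Cls (⊤ : Subgroup G) f) (hg : Cls (⊤ : Subgroup G) g) :
    tr σ (conv f g) = conv (tr σ f) (tr σ g) := by
  refine cls_ext (SC_cls_tr σ _) (conv_cls (SC_cls_tr σ _) (SC_cls_tr σ _)) fun ψ hψ => ?_
  obtain ⟨χ, hχ, hχψ⟩ := h.irr.2.1 ψ hψ
  have hχc : Cls (⊤ : Subgroup G) χ := hχ.isCh.cls
  have h1 : ψ 1 = χ 1 := by
    rw [← hχψ]
    exact tr_apply hχc (h.one.2 rfl)
  have h2 := sum_conv hχ hf hg
  have h3 := sum_conv hψ (SC_cls_tr σ f) (SC_cls_tr σ g)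
  have h4 := SC_key h (conv_cls hf hg) hχc
  have h5 := SC_key h hf hχc
  have h6 := SC_key h hg hχc
  rw [hχψ] at h4 h5 h6
  rw [h5, h6, ← h2, ← h4, ← h1] at h3
  exact (mul_left_cancel₀ (SC_one_ne hψ) h3).symm

private noncomputable def SC_del {G : Type} [Group G] (g : G) : G → ℂ :=
  fun x => if IsConj g x then 1 else 0

omit [Fintype G] in
private theorem SC_del_cls (g : G) : Cls (⊤ : Subgroup G) (SC_del g) := by
  refine ⟨fun x hx => absurd trivial hx, fun a _ x => ?_⟩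
  unfold SC_del
  have h1 : IsConj g (a * x * a⁻¹) ↔ IsConj g x := by
    have h2 : IsConj x (a * x * a⁻¹) := isConj_iff.2 ⟨a, rfl⟩
    exact ⟨fun h => h.trans h2.symm, fun h => h.trans h2⟩
  rw [if_congr h1 rfl rfl]

private theorem SC_del_tr {G' : Type} [Group G'] {σ : ConjClasses G ≃ ConjClasses G'}
    {g : G} {h : G'} (r : Rel σ g h) : tr σ (SC_del g) = SC_del h := by
  funext x'
  obtain ⟨x, hx⟩ := (rel_exists σ).2 x'
  rw [tr_apply (SC_del_cls g) hx]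
  unfold SC_del
  have h1 : IsConj g x ↔ IsConj h x' := by
    rw [← ConjClasses.mk_eq_mk_iff_isConj, ← ConjClasses.mk_eq_mk_iff_isConj, ← r, ← hx]
    exact σ.injective.eq_iff.symm
  by_cases h2 : IsConj g x
  · rw [if_pos h2, if_pos (h1.1 h2)]
  · rw [if_neg h2, if_neg (fun h3 => h2 (h1.2 h3))]

private theorem SC_conv_del (g₁ g₂ z : G) : conv (SC_del g₁) (SC_del g₂) z = (NN g₁ g₂ z : ℂ) := by
  unfold conv NN SC_del
  rw [Nat.card_eq_fintype_card, Fintype.card_subtype, Finset.card_filter, Nat.cast_sum]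
  refine Finset.sum_congr rfl fun x _ => ?_
  by_cases h1 : IsConj g₁ x
  · by_cases h2 : IsConj g₂ (x⁻¹ * z)
    · have h3 : IsConj g₁ x ∧ IsConj g₂ (x⁻¹ * z) := ⟨h1, h2⟩
      rw [if_pos h1, if_pos h2, if_pos h3, one_mul, Nat.cast_one]
    · have h3 : ¬ (IsConj g₁ x ∧ IsConj g₂ (x⁻¹ * z)) := fun h => h2 h.2
      rw [if_neg h2, if_neg h3, mul_zero, Nat.cast_zero]
  · have h3 : ¬ (IsConj g₁ x ∧ IsConj g₂ (x⁻¹ * z)) := fun h => h1 h.1
    rw [if_neg h1, if_neg h3, zero_mul, Nat.cast_zero]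

theorem NN_eq {G' : Type} [Group G'] [Fintype G'] {σ : ConjClasses G ≃ ConjClasses G'}
    (h : TabIso σ) {g₁ g₂ g₃ : G} {h₁ h₂ h₃ : G'} (r₁ : Rel σ g₁ h₁) (r₂ : Rel σ g₂ h₂)
    (r₃ : Rel σ g₃ h₃) : NN g₁ g₂ g₃ = NN h₁ h₂ h₃ := by
  have e1 := congrFun (tr_conv h (SC_del_cls g₁) (SC_del_cls g₂)) h₃
  rw [tr_apply (conv_cls (SC_del_cls g₁) (SC_del_cls g₂)) r₃, SC_del_tr r₁, SC_del_tr r₂,
    SC_conv_del, SC_conv_del] at e1
  exact_mod_cast e1

end Pool.Agent.NGP
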