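import Pool.Agent.NGP.Defs
import Pool.Agent.NGP.SC
import Pool.Agent.NGP.Count
import Pool.Agent.NGP.Fuse
import Pool.Agent.NGP.PPart
import Pool.Agent.NGP.PowMap
import Pool.Agent.CTab.V01
import Pool.Agent.CTab.V05

/-!
Same situation. For `d` of order prime to `p` in the centraliser of `Q` and `z` in the centraliser of `Q` the number of
`a ∈ C(Q)` with `a` conjugate to `d` and `a⁻¹ z` conjugate to `d⁻¹` is `≡ 1` if `z = 1` and `≡ 0` otherwise.

Choose `e`, `z'` in `C(P)` with `Rel σ e d`, `Rel σ z' z` (`rel_centralizer`); the order of `e` is prime to `p`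
(`TabIso.p_regular`) and `Rel σ e⁻¹ d⁻¹` (`rel_inv`). By `NN_modEq` for `Q`, `NN_eq` and `NN_modEq` for `P` the number is
congruent to `#{a | IsConj e a, IsConj e⁻¹ (a⁻¹ z'), a ∈ C(P)}`. For such `a`: `a = n e n⁻¹ = e` and `a⁻¹ z' = n e⁻¹ n⁻¹ = e⁻¹`
(`fuse`, `comm_of_ab` for `e` and `e⁻¹`), so `z' = 1`. So the number is `0` if `z' ≠ 1` and `1` if `z' = 1`. Finally
`z' = 1 ↔ z = 1`: `Rel σ 1 z ↔ z = 1` (`TabIso.one`) and its symmetric form (`TabIso.symm`, `rel_symm`).
-/

set_option autoImplicit false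

namespace Pool.Agent.NGP

open scoped Classical
open Pool.Agent.CTab

theorem inv_count {p : ℕ} [Fact p.Prime] {G G' : Type} [Group G] [Fintype G] [Group G']
    [Fintype G'] {σ : ConjClasses G ≃ ConjClasses G'} (hσ : TabIso σ) (P : Sylow p G)
    (Q : Sylow p G') (hab : Ab (P : Subgroup G)) {d z : G'}
    (hd : d ∈ Subgroup.centralizer ((Q : Subgroup G') : Set G')) (hd' : ¬ p ∣ orderOf d)
    (hz : z ∈ Subgroup.centralizer ((Q : Subgroup G') : Set G')) :
    Nat.card {x : G' // (IsConj d x ∧ IsConj d⁻¹ (x⁻¹ * z)) ∧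
      x ∈ Subgroup.centralizer ((Q : Subgroup G') : Set G')} ≡
      (if z = 1 then 1 else 0) [MOD p] := by
  have hp : p.Prime := Fact.out
  obtain ⟨e, he, re⟩ := rel_centralizer hσ P Q hd
  obtain ⟨z', hz', rz⟩ := rel_centralizer hσ P Q hz
  have he' : ¬ p ∣ orderOf e := fun h => hd' ((hσ.p_regular hp re).mp h)
  have re' : Rel σ e⁻¹ d⁻¹ := rel_inv hσ re
  have h1 := NN_modEq Q.isPGroup' d d⁻¹ hz
  have h2 := NN_modEq P.isPGroup' e e⁻¹ hz'
  have h3 := NN_eq hσ re re' rz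
  have hone : z' = 1 ↔ z = 1 := by
    constructor
    · intro h
      rw [h] at rz
      exact (hσ.one).mp rz
    · intro h
      rw [h] at rz
      exact (hσ.symm.one).mp (rel_symm.mp rz)
  have hei : e⁻¹ ∈ Subgroup.centralizer ((P : Subgroup G) : Set G) := inv_mem he
  have key : ∀ x : G, ((IsConj e x ∧ IsConj e⁻¹ (x⁻¹ * z')) ∧
      x ∈ Subgroup.centralizer ((P : Subgroup G) : Set G)) ↔ (x = e ∧ z' = 1) := by
    intro x
    constructor
    · rintro ⟨⟨hx1, hx2⟩, hx3⟩
      obtain ⟨n, hn, hn'⟩ := fuse P he hx3 hx1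
      have hxe : x = e := by
        rw [← hn']
        exact comm_of_ab hp P.isPGroup' hab he he' hn
      have hxz : x⁻¹ * z' ∈ Subgroup.centralizer ((P : Subgroup G) : Set G) :=
        mul_mem (inv_mem hx3) hz'
      obtain ⟨m, hm, hm'⟩ := fuse P hei hxz hx2
      have h5 : x⁻¹ * z' = e⁻¹ := by
        rw [← hm']
        exact comm_of_ab hp P.isPGroup' hab hei (by rwa [orderOf_inv]) hm
      refine ⟨hxe, ?_⟩
      rw [hxe] at h5
      exact mul_left_cancel (h5.trans (mul_one _).symm)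
    · rintro ⟨h6, h7⟩
      rw [h6, h7]
      exact ⟨⟨IsConj.refl _, by rw [mul_one]⟩, he⟩
  have h4 : Nat.card {x : G // (IsConj e x ∧ IsConj e⁻¹ (x⁻¹ * z')) ∧
      x ∈ Subgroup.centralizer ((P : Subgroup G) : Set G)} = if z = 1 then 1 else 0 := by
    rw [Nat.card_congr (Equiv.subtypeEquivRight key)]
    split_ifs with h
    · have h8 : z' = 1 := hone.mpr h
      simp [h8]
    · have h8 : ¬ z' = 1 := fun h9 => h (hone.mp h9)
      simp [h8]
  rw [h4] at h2
  rw [h3] at h2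
  exact h1.symm.trans h2

end Pool.Agent.NGP
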