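import Pool.Agent.NGP.Defs
import Pool.Agent.NGP.PPart

/-!
The `p'`-elements of the centraliser of a Sylow `p`-subgroup form a subgroup of order prime to `p`.

Let `C` be the centraliser of `P` and `Z = P ⊓ C`, a central subgroup of `C`. The index of `Z` in `C` is prime to `p`
(`C/Z` embeds in `PC/P`, a subset of the cosets of `P`, and `|PC| |Z| = |P| |C|`; or: `Z` is a Sylow `p`-subgroup of `C` by
`exists_parts`: a `p`-subgroup of `C` containing `Z` consists of elements `z l` with `l` of order prime to `p` commuting with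
`z`, so `l = 1`). By Schur-Zassenhaus (`Subgroup.exists_right_complement'_of_coprime`) `Z` has a complement `K` in `C`, and
`C = Z K` with `Z` central: `|K|` is prime to `p`; an element `z k` of `C` has order prime to `p` iff `z = 1` (`part_unique`
or orders). `L` is the image of `K` in `G`.
-/

set_option autoImplicit false

namespace Pool.Agent.NGP

open scoped Classical
open Pool.Agent.CTab

variable {G : Type} [Group G] [Fintype G]

private theorem LSub_mem {p : ℕ} [Fact p.Prime] (P : Sylow p G) {g : G}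
    (hg : g ∈ Subgroup.centralizer ((P : Subgroup G) : Set G)) (hp : ∃ k : ℕ, g ^ p ^ k = 1) :
    g ∈ (P : Subgroup G) := by
  obtain ⟨k, hk⟩ := hp
  have h1 : IsPGroup p (Subgroup.zpowers g) := by
    rintro ⟨x, hx⟩
    obtain ⟨i, rfl⟩ := Subgroup.mem_zpowers_iff.mp hx
    refine ⟨k, Subtype.ext ?_⟩
    change (g ^ i) ^ p ^ k = 1
    rw [← zpow_natCast, ← zpow_mul, mul_comm, zpow_mul, zpow_natCast, hk, one_zpow]
  have h2 : g ∈ Subgroup.normalizer ((P : Subgroup G) : Set G) := by
    rw [Subgroup.mem_normalizer_iff]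
    rw [Subgroup.mem_centralizer_iff] at hg
    intro h
    constructor
    · intro hh
      rw [← hg h hh, mul_assoc, mul_inv_cancel, mul_one]
      exact hh
    · intro hh
      have h3 := hg _ hh
      rw [inv_mul_cancel_right] at h3
      have h4 : h = g * h * g⁻¹ := mul_left_cancel h3
      rw [h4]
      exact hh
  have h4 := h1.inf_normalizer_sylow P
  have h5 : g ∈ Subgroup.zpowers g ⊓ Subgroup.normalizer ((P : Subgroup G) : Set G) :=
    ⟨Subgroup.mem_zpowers g, h2⟩
  change g ∈ Subgroup.zpowers g ⊓ Subgroup.normalizer (P : Set G) at h5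
  rw [h4] at h5
  exact h5.2

theorem exists_L {p : ℕ} [Fact p.Prime] (P : Sylow p G) :
    ∃ L : Subgroup G, ¬ p ∣ Nat.card L ∧
      ∀ g, g ∈ L ↔ g ∈ Subgroup.centralizer ((P : Subgroup G) : Set G) ∧ ¬ p ∣ orderOf g := by
  have hp : p.Prime := Fact.out
  obtain ⟨C, hC⟩ : ∃ C : Subgroup G, C = Subgroup.centralizer ((P : Subgroup G) : Set G) :=
    ⟨_, rfl⟩
  obtain ⟨Q⟩ : Nonempty (Sylow p C) := inferInstance
  have hQ : ∀ q : C, q ∈ (Q : Subgroup C) → (q : G) ∈ (P : Subgroup G) := by
    intro q hq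
    obtain ⟨k, hk⟩ := Q.isPGroup' ⟨q, hq⟩
    exact LSub_mem P (hC ▸ q.2) ⟨k, congrArg (fun x : Q => ((x : C) : G)) hk⟩
  have hQc : ∀ q ∈ (Q : Subgroup C), ∀ c : C, q * c = c * q := by
    intro q hq c
    apply Subtype.ext
    have h1 : (c : G) ∈ Subgroup.centralizer ((P : Subgroup G) : Set G) := hC ▸ c.2
    exact (Subgroup.mem_centralizer_iff.mp h1) q (hQ q hq)
  have hQn : (Q : Subgroup C).Normal := ⟨fun q hq c => by
    rw [← hQc q hq c, mul_assoc, mul_inv_cancel, mul_one]
    exact hq⟩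
  have hidx : ¬ p ∣ (Q : Subgroup C).index := Q.not_dvd_index
  have hcop : Nat.Coprime (Nat.card (Q : Subgroup C)) (Q : Subgroup C).index := by
    obtain ⟨n, hn⟩ := IsPGroup.iff_card.mp Q.isPGroup'
    rw [hn]
    exact Nat.Coprime.pow_left n ((Nat.Prime.coprime_iff_not_dvd hp).mpr hidx)
  obtain ⟨K, hK⟩ := Subgroup.exists_right_complement'_of_coprime hcop
  have hKcard : (Q : Subgroup C).index = Nat.card K := hK.symm.index_eq_card
  refine ⟨K.map C.subtype, ?_, ?_⟩
  · rw [← Nat.card_congr (K.equivMapOfInjective _ C.subtype_injective).toEquiv, ← hKcard]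
    exact hidx
  · intro g
    rw [← hC]
    constructor
    · rintro ⟨k, hk, rfl⟩
      refine ⟨k.2, fun hd => hidx ?_⟩
      change p ∣ orderOf (k : G) at hd
      rw [Subgroup.orderOf_coe] at hd
      rw [hKcard]
      exact hd.trans (Subgroup.orderOf_dvd_natCard K hk)
    · rintro ⟨hg, hgo⟩
      obtain ⟨⟨q, k⟩, hqk⟩ := hK.2 ⟨g, hg⟩
      change (q : C) * (k : C) = ⟨g, hg⟩ at hqk
      have ho : orderOf ((q : C) * (k : C)) = orderOf g := by
        rw [hqk, ← Subgroup.orderOf_coe]
      have h1 : ((q : C) * (k : C)) ^ orderOf g = 1 := by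
        rw [← ho]
        exact pow_orderOf_eq_one _
      have hc : Commute (q : C) (k : C) := hQc q q.2 k
      rw [hc.mul_pow] at h1
      have h2 : (q : C) ^ orderOf g = 1 := by
        have h3 : (q : C) ^ orderOf g ∈ (Q : Subgroup C) := pow_mem q.2 _
        have h4 : (q : C) ^ orderOf g ∈ K := by
          rw [eq_inv_of_mul_eq_one_left h1]
          exact inv_mem (pow_mem k.2 _)
        exact (Subgroup.disjoint_def.mp hK.disjoint) h3 h4
      obtain ⟨j, hj⟩ := Q.isPGroup' q
      have hj' : (q : C) ^ p ^ j = 1 := congrArg (fun x : Q => (x : C)) hj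
      have h5 : orderOf (q : C) ∣ Nat.gcd (orderOf g) (p ^ j) :=
        Nat.dvd_gcd (orderOf_dvd_of_pow_eq_one h2) (orderOf_dvd_of_pow_eq_one hj')
      have h6 : Nat.gcd (orderOf g) (p ^ j) = 1 :=
        Nat.Coprime.pow_right j (((Nat.Prime.coprime_iff_not_dvd hp).mpr hgo).symm)
      rw [h6, Nat.dvd_one, orderOf_eq_one_iff] at h5
      rw [h5, one_mul] at hqk
      refine ⟨k, k.2, ?_⟩
      rw [hqk]
      rfl

end Pool.Agent.NGP
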