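import Pool.Agent.NGP.Defs
import Pool.Agent.NGP.CC
import Pool.Agent.CTab.B01
import Pool.Agent.CTab.B12

/-!
If the class sum of `d` is invertible modulo `p` then `χ d ≠ 0`.

Suppose `χ d = 0`. Let `f` and `g` be the indicators of the classes of `d` and `d⁻¹` (class functions). `conv f g z = NN d d⁻¹ z`
(cast), and `Σ f x χ x = |cl d| χ d = 0`. By `sum_conv`, `χ 1 * Σ_z NN d d⁻¹ z * χ z = 0`, and `χ 1 = m ≠ 0` with `m ∣ |L|`
(`IsIr.deg_dvd`). Write `NN d d⁻¹ z = (if z = 1 then 1 else 0) + p b_z` with integers `b_z`. Then `m + p β = 0` with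
`β = Σ b_z χ z` an algebraic integer (`IsCh.integral`). So `β = - m / p` is a rational number which is integral over `ℤ`, hence
an integer (`IsIntegrallyClosed.isIntegral_iff`, see `exists_qideal` in CTab/V03 for the same argument) and `p ∣ m ∣ |L|`, a
contradiction.
-/

set_option autoImplicit false

namespace Pool.Agent.NGP

open scoped Classical
open Pool.Agent.CTab

private theorem NoZero_conj {L : Type} [Group L] (d a x : L) :
    IsConj d (a * x * a⁻¹) ↔ IsConj d x := by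
  have h : IsConj x (a * x * a⁻¹) := isConj_iff.2 ⟨a, rfl⟩
  exact ⟨fun h' => h'.trans h.symm, fun h' => h'.trans h⟩

private theorem NoZero_cls {L : Type} [Group L] [Fintype L] (d : L) :
    Cls (⊤ : Subgroup L) (fun x => if IsConj d x then (1 : ℂ) else 0) := by
  refine ⟨fun x hx => absurd (Subgroup.mem_top x) hx, fun a _ x => ?_⟩
  simp only [NoZero_conj]

private theorem NoZero_conv {L : Type} [Group L] [Fintype L] (d e z : L) :
    conv (fun x => if IsConj d x then (1 : ℂ) else 0) (fun x => if IsConj e x then (1 : ℂ) else 0) z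
      = (NN d e z : ℂ) := by
  unfold conv NN
  rw [Nat.card_eq_fintype_card, Fintype.card_subtype, Finset.card_filter, Nat.cast_sum]
  refine Finset.sum_congr rfl fun x _ => ?_
  beta_reduce
  by_cases h1 : IsConj d x
  · by_cases h2 : IsConj e (x⁻¹ * z)
    · rw [if_pos h1, if_pos h2, if_pos ⟨h1, h2⟩, mul_one, Nat.cast_one]
    · have h3 : ¬ (IsConj d x ∧ IsConj e (x⁻¹ * z)) := fun h => h2 h.2
      rw [if_neg h2, if_neg h3, mul_zero, Nat.cast_zero]
  · have h3 : ¬ (IsConj d x ∧ IsConj e (x⁻¹ * z)) := fun h => h1 h.1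
    rw [if_neg h1, if_neg h3, zero_mul, Nat.cast_zero]

theorem no_zero {L : Type} [Group L] [Fintype L] {p : ℕ} (hp : p.Prime) (hL : ¬ p ∣ Nat.card L)
    {d : L} (h : ∀ z : L, NN d d⁻¹ z ≡ (if z = 1 then 1 else 0) [MOD p]) {χ : L → ℂ}
    (hχ : IsIr (⊤ : Subgroup L) χ) : χ d ≠ 0 := by
  intro hd
  obtain ⟨m, hm0, hm, hdvd⟩ := hχ.deg_dvd
  have hcls := hχ.isCh.cls
  have hconj : ∀ x, IsConj d x → χ x = χ d := by
    intro x hx
    obtain ⟨c, rfl⟩ := isConj_iff.1 hx
    exact hcls.2 c (Subgroup.mem_top c) d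
  have hf : ∑ x, (if IsConj d x then (1 : ℂ) else 0) * χ x = 0 := by
    refine Finset.sum_eq_zero fun x _ => ?_
    by_cases hx : IsConj d x
    · rw [hconj x hx, hd, mul_zero]
    · rw [if_neg hx, zero_mul]
  have hs := sum_conv hχ (NoZero_cls d) (NoZero_cls d⁻¹)
  rw [hf, zero_mul, hm] at hs
  have hmC : (m : ℂ) ≠ 0 := by exact_mod_cast hm0.ne'
  have hs1 : ∑ z, (NN d d⁻¹ z : ℂ) * χ z = 0 := by
    have := (mul_eq_zero.1 hs).resolve_left hmC
    simpa only [NoZero_conv] using this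
  have hb : ∀ z : L, ∃ c : ℤ, (if z = 1 then (1 : ℤ) else 0) - (NN d d⁻¹ z : ℤ) = p * c := by
    intro z
    have h1 := Nat.modEq_iff_dvd.1 (h z)
    obtain ⟨c, hc⟩ := h1
    refine ⟨c, ?_⟩
    rw [← hc]
    push_cast
    rfl
  choose c hc using hb
  have hNN : ∀ z : L, (NN d d⁻¹ z : ℂ) = (if z = 1 then (1 : ℂ) else 0) - p * (c z : ℂ) := by
    intro z
    have h1 : ((if z = 1 then (1 : ℤ) else 0) - (NN d d⁻¹ z : ℤ) : ℤ) = p * c z := hc z
    have h2 : (((if z = 1 then (1 : ℤ) else 0) - (NN d d⁻¹ z : ℤ) : ℤ) : ℂ) = ((p * c z : ℤ) : ℂ) := by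
      rw [h1]
    push_cast at h2
    rw [← h2]
    ring
  have hβ : (m : ℂ) = p * ∑ z, (c z : ℂ) * χ z := by
    have h1 : ∑ z, ((if z = 1 then (1 : ℂ) else 0) - p * (c z : ℂ)) * χ z = 0 := by
      refine Eq.trans ?_ hs1
      exact Finset.sum_congr rfl fun z _ => by rw [hNN z]
    have h2 : ∑ z, ((if z = 1 then (1 : ℂ) else 0) - p * (c z : ℂ)) * χ z
        = χ 1 - p * ∑ z, (c z : ℂ) * χ z := by
      rw [Finset.mul_sum]
      have h3 : ∀ z, ((if z = 1 then (1 : ℂ) else 0) - p * (c z : ℂ)) * χ z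
          = (if z = 1 then χ z else 0) - p * ((c z : ℂ) * χ z) := by
        intro z
        by_cases hz : z = 1 <;> simp [hz] <;> ring
      simp only [h3]
      rw [Finset.sum_sub_distrib, Finset.sum_ite_eq' Finset.univ (1 : L) χ]
      simp
    rw [h2, hm] at h1
    linear_combination h1
  have hint : IsIntegral ℤ (∑ z, (c z : ℂ) * χ z) := by
    refine IsIntegral.sum _ fun z _ => ?_
    exact (isIntegral_algebraMap (x := c z)).mul (hχ.isCh.integral z)
  have hp0 : (p : ℂ) ≠ 0 := by exact_mod_cast hp.ne_zero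
  have hq : (∑ z, (c z : ℂ) * χ z) = algebraMap ℚ ℂ ((m : ℚ) / p) := by
    rw [map_div₀, map_natCast, map_natCast, hβ]
    field_simp
  rw [hq, isIntegral_algebraMap_iff (algebraMap ℚ ℂ).injective] at hint
  obtain ⟨y, hy⟩ := IsIntegrallyClosed.isIntegral_iff.1 hint
  have hp0' : (p : ℚ) ≠ 0 := by exact_mod_cast hp.ne_zero
  have h5 : (y : ℚ) * p = m := by
    have h6 : (y : ℚ) = (m : ℚ) / p := hy
    rw [h6, div_mul_cancel₀ _ hp0']
  have h7 : y * (p : ℤ) = (m : ℤ) := by exact_mod_cast h5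
  have h8 : p ∣ m := Int.natCast_dvd_natCast.1 ⟨y, by rw [← h7, mul_comm]⟩
  apply hL
  rw [← Subgroup.card_top (G := L)]
  exact h8.trans hdvd

end Pool.Agent.NGP
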