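import Pool.Agent.NGP.Defs
import Pool.Agent.NGP.SC
import Pool.Agent.NGP.Count
import Pool.Agent.NGP.Fuse
import Pool.Agent.NGP.PPart
import Pool.Agent.CTab.V01
import Pool.Agent.CTab.V05

/-!
`G`, `G'` have the same character table, `P`, `Q` are Sylow `p`-subgroups, `N_G(P)/P` is abelian. `y ∈ Z(Q)`, `d` an element of
order prime to `p` of the centraliser of `Q`, `m ∈ N(Q)`.

Choose `x` in the centraliser of `P` with `Rel σ x y` and `e` in the centraliser of `P` with `Rel σ e d` (`rel_centralizer`); the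
order of `e` is prime to `p` (`TabIso.p_regular`), so `n e n⁻¹ = e` for all `n ∈ N_G(P)` (`comm_of_ab`).

`key`: for `d' = m d m⁻¹` and `z = y d'` there is: every `z'` in the centraliser of `P` with `Rel σ z' z` is conjugate to `x e`.
Proof. `NN y d z` is congruent mod `p` to `#{a | IsConj y a, IsConj d (a⁻¹ z), a ∈ C(Q)}` (`NN_modEq`); this set is `{y}`:
`a = n y n⁻¹` with `n ∈ N(Q)` (`fuse`), so `a ∈ Z(Q)`; `b = a⁻¹ z` is in `C(Q)` and conjugate to `d`, so its order is prime to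
`p`; `a b = y d'`, so `a = y` by `part_unique`. Conversely `a = y` is in the set as `y⁻¹ z = d'` is conjugate to `d`. So
`NN y d z ≡ 1`. By `NN_eq`, `NN x e z' ≡ 1`, so by `NN_modEq` for `P` the set
`{a | IsConj x a, IsConj e (a⁻¹ z'), a ∈ C(P)}` is not empty. For `a` in it, `a⁻¹ z'` is in `C(P)` and conjugate to `e`, so it is
`n e n⁻¹ = e` (`fuse`, `comm_of_ab`); and `a = n x n⁻¹` with `n ∈ N_G(P)` (`fuse`). So `z' = a e = n x n⁻¹ e = n (x e) n⁻¹`.

`trans_orbit`: apply `key` to `m = 1` and to `m` (representatives `z'` exist by `rel_centralizer`): `y d` and `y d'` both correspond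
to the class of `x e`, so they are conjugate in `G'`, and both are in `C(Q)`, so `n (y d) n⁻¹ = y d'` with `n ∈ N(Q)`
(`fuse`). Now `(n y n⁻¹) (n d n⁻¹) = y d'` and `part_unique`.
-/

set_option autoImplicit false

namespace Pool.Agent.NGP

open scoped Classical
open Pool.Agent.CTab

private theorem Trans_order {G : Type} [Group G] (n a : G) :
    orderOf (n * a * n⁻¹) = orderOf a := by
  have := orderOf_injective (MulAut.conj n).toMonoidHom (MulAut.conj n).injective a
  simpa using this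

private theorem Trans_isConj_order {G : Type} [Group G] {a b : G} (h : IsConj a b) :
    orderOf b = orderOf a := by
  obtain ⟨c, hc⟩ := isConj_iff.mp h
  rw [← hc]
  exact Trans_order c a

private theorem Trans_mem {G : Type} [Group G] {Q : Subgroup G} {n y : G}
    (hn : n ∈ Subgroup.normalizer (Q : Set G)) (hy : y ∈ Q) : n * y * n⁻¹ ∈ Q :=
  (Subgroup.mem_normalizer_iff.mp hn y).mp hy

private theorem Trans_cent {G : Type} [Group G] {Q : Subgroup G} {n y : G}
    (hn : n ∈ Subgroup.normalizer (Q : Set G)) (hy : y ∈ Subgroup.centralizer (Q : Set G)) :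
    n * y * n⁻¹ ∈ Subgroup.centralizer (Q : Set G) := by
  rw [Subgroup.mem_centralizer_iff]
  intro u hu
  have h1 : n⁻¹ * u * n⁻¹⁻¹ ∈ Q := Trans_mem (Subgroup.inv_mem _ hn) hu
  rw [inv_inv] at h1
  have h2 : (n⁻¹ * u * n) * y = y * (n⁻¹ * u * n) := Subgroup.mem_centralizer_iff.mp hy _ h1
  calc u * (n * y * n⁻¹) = n * ((n⁻¹ * u * n) * y) * n⁻¹ := by group
    _ = n * (y * (n⁻¹ * u * n)) * n⁻¹ := by rw [h2]
    _ = n * y * n⁻¹ * u := by group

private theorem Trans_key {p : ℕ} [Fact p.Prime] {G G' : Type} [Group G] [Fintype G] [Group G']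
    [Fintype G'] {σ : ConjClasses G ≃ ConjClasses G'} (hσ : TabIso σ) (P : Sylow p G)
    (Q : Sylow p G') (hab : Ab (P : Subgroup G)) {y d m : G'} (hy : y ∈ (Q : Subgroup G'))
    (hy' : y ∈ Subgroup.centralizer ((Q : Subgroup G') : Set G'))
    (hd : d ∈ Subgroup.centralizer ((Q : Subgroup G') : Set G')) (hd' : ¬ p ∣ orderOf d)
    (hm : m ∈ Subgroup.normalizer ((Q : Subgroup G') : Set G'))
    {x e z' : G} (hx : x ∈ Subgroup.centralizer ((P : Subgroup G) : Set G)) (hxy : Rel σ x y)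
    (he : e ∈ Subgroup.centralizer ((P : Subgroup G) : Set G)) (hed : Rel σ e d)
    (hz' : z' ∈ Subgroup.centralizer ((P : Subgroup G) : Set G))
    (hzz : Rel σ z' (y * (m * d * m⁻¹))) : IsConj (x * e) z' := by
  have hp : p.Prime := Fact.out
  have hdm := Trans_cent hm hd
  have hdm' : ¬ p ∣ orderOf (m * d * m⁻¹) := by rwa [Trans_order]
  have hz : y * (m * d * m⁻¹) ∈ Subgroup.centralizer ((Q : Subgroup G') : Set G') :=
    Subgroup.mul_mem _ hy' hdm
  have hcard : Nat.card {a : G' // (IsConj y a ∧ IsConj d (a⁻¹ * (y * (m * d * m⁻¹)))) ∧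
      a ∈ Subgroup.centralizer ((Q : Subgroup G') : Set G')} = 1 := by
    rw [Nat.card_eq_one_iff_unique]
    refine ⟨⟨?_⟩, ⟨⟨y, ⟨IsConj.refl y, ?_⟩, hy'⟩⟩⟩
    · have huniq : ∀ a : G', (IsConj y a ∧ IsConj d (a⁻¹ * (y * (m * d * m⁻¹)))) ∧
          a ∈ Subgroup.centralizer ((Q : Subgroup G') : Set G') → a = y := by
        rintro a ⟨⟨h1, h2⟩, h3⟩
        obtain ⟨n, hn, hn2⟩ := fuse Q hy' h3 h1
        have haQ : a ∈ (Q : Subgroup G') := by
          rw [← hn2]
          exact Trans_mem hn hy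
        have hb : a⁻¹ * (y * (m * d * m⁻¹)) ∈
            Subgroup.centralizer ((Q : Subgroup G') : Set G') :=
          Subgroup.mul_mem _ (Subgroup.inv_mem _ h3) hz
        have hb' : ¬ p ∣ orderOf (a⁻¹ * (y * (m * d * m⁻¹))) := by
          rw [Trans_isConj_order h2]
          exact hd'
        exact (part_unique hp Q.isPGroup' haQ h3 hy hy' hb hdm hb' hdm' (by group)).1
      rintro ⟨a, ha⟩ ⟨b, hb⟩
      apply Subtype.ext
      change a = b
      rw [huniq a ha, huniq b hb]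
    · rw [inv_mul_cancel_left]
      exact isConj_iff.mpr ⟨m, rfl⟩
  have h1 := NN_modEq (P := (Q : Subgroup G')) Q.isPGroup' y d hz
  rw [hcard] at h1
  have h2 := NN_eq hσ hxy hed hzz
  have h3 := NN_modEq (P := (P : Subgroup G)) P.isPGroup' x e hz'
  rw [h2] at h3
  have h4 := h3.symm.trans h1
  have hne : Nat.card {a : G // (IsConj x a ∧ IsConj e (a⁻¹ * z')) ∧
      a ∈ Subgroup.centralizer ((P : Subgroup G) : Set G)} ≠ 0 := by
    intro h0
    rw [h0] at h4
    have h5 : p ∣ 1 := (Nat.modEq_zero_iff_dvd).1 h4.symm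
    exact hp.one_lt.ne' (Nat.dvd_one.1 h5)
  have hne2 : Nonempty {a : G // (IsConj x a ∧ IsConj e (a⁻¹ * z')) ∧
      a ∈ Subgroup.centralizer ((P : Subgroup G) : Set G)} := by
    by_contra hc
    rw [not_nonempty_iff] at hc
    exact hne (by rw [Nat.card_eq_zero]; left; exact hc)
  obtain ⟨a, ⟨ha1, ha2⟩, ha3⟩ := hne2
  have he' : ¬ p ∣ orderOf e := by
    rw [TabIso.p_regular hσ hp hed]
    exact hd'
  obtain ⟨n, hn, hn2⟩ := fuse P he (Subgroup.mul_mem _ (Subgroup.inv_mem _ ha3) hz') ha2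
  rw [comm_of_ab hp P.isPGroup' hab he he' hn] at hn2
  obtain ⟨n', hn', hn2'⟩ := fuse P hx ha3 ha1
  have h6 := comm_of_ab hp P.isPGroup' hab he he' hn'
  rw [isConj_iff]
  refine ⟨n', ?_⟩
  calc n' * (x * e) * n'⁻¹ = (n' * x * n'⁻¹) * (n' * e * n'⁻¹) := by group
    _ = a * (a⁻¹ * z') := by rw [hn2', h6, hn2]
    _ = z' := by group

theorem trans_orbit {p : ℕ} [Fact p.Prime] {G G' : Type} [Group G] [Fintype G] [Group G']
    [Fintype G'] {σ : ConjClasses G ≃ ConjClasses G'} (hσ : TabIso σ) (P : Sylow p G)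
    (Q : Sylow p G') (hab : Ab (P : Subgroup G)) {y d m : G'} (hy : y ∈ (Q : Subgroup G'))
    (hy' : y ∈ Subgroup.centralizer ((Q : Subgroup G') : Set G'))
    (hd : d ∈ Subgroup.centralizer ((Q : Subgroup G') : Set G')) (hd' : ¬ p ∣ orderOf d)
    (hm : m ∈ Subgroup.normalizer ((Q : Subgroup G') : Set G')) :
    ∃ n ∈ Subgroup.normalizer ((Q : Subgroup G') : Set G'), n * y * n⁻¹ = y ∧
      n * d * n⁻¹ = m * d * m⁻¹ := by
  have hp : p.Prime := Fact.out
  obtain ⟨x, hx, hxy⟩ := rel_centralizer hσ P Q hy'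
  obtain ⟨e, he, hed⟩ := rel_centralizer hσ P Q hd
  have hone : (1 : G') ∈ Subgroup.normalizer ((Q : Subgroup G') : Set G') := Subgroup.one_mem _
  have hz1 : y * (1 * d * 1⁻¹) ∈ Subgroup.centralizer ((Q : Subgroup G') : Set G') :=
    Subgroup.mul_mem _ hy' (Trans_cent hone hd)
  have hz2 : y * (m * d * m⁻¹) ∈ Subgroup.centralizer ((Q : Subgroup G') : Set G') :=
    Subgroup.mul_mem _ hy' (Trans_cent hm hd)
  obtain ⟨z1, hz1', hr1⟩ := rel_centralizer hσ P Q hz1
  obtain ⟨z2, hz2', hr2⟩ := rel_centralizer hσ P Q hz2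
  have c1 := Trans_key hσ P Q hab hy hy' hd hd' hone hx hxy he hed hz1' hr1
  have c2 := Trans_key hσ P Q hab hy hy' hd hd' hm hx hxy he hed hz2' hr2
  have hcls : ConjClasses.mk z1 = ConjClasses.mk z2 :=
    ConjClasses.mk_eq_mk_iff_isConj.2 (c1.symm.trans c2)
  have hr1' : σ (ConjClasses.mk z1) = ConjClasses.mk (y * (1 * d * 1⁻¹)) := hr1
  have hr2' : σ (ConjClasses.mk z2) = ConjClasses.mk (y * (m * d * m⁻¹)) := hr2
  rw [hcls, hr2'] at hr1'
  have hconj : IsConj (y * (1 * d * 1⁻¹)) (y * (m * d * m⁻¹)) :=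
    (ConjClasses.mk_eq_mk_iff_isConj.1 hr1').symm
  obtain ⟨n, hn, hn2⟩ := fuse Q hz1 hz2 hconj
  refine ⟨n, hn, ?_⟩
  have hdn' : ¬ p ∣ orderOf (n * d * n⁻¹) := by rwa [Trans_order]
  have hdm' : ¬ p ∣ orderOf (m * d * m⁻¹) := by rwa [Trans_order]
  refine part_unique hp Q.isPGroup' (Trans_mem hn hy) (Trans_cent hn hy') hy hy'
    (Trans_cent hn hd) (Trans_cent hm hd) hdn' hdm' ?_
  rw [← hn2]
  group

end Pool.Agent.NGP
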