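import Pool.Agent.NGP.Defs
import Pool.Agent.NGP.Fuse
import Pool.Agent.NGP.PPart
import Pool.Agent.NGP.LSub
import Pool.Agent.NGP.Trans
import Pool.Agent.NGP.Inv
import Pool.Agent.NGP.Burn
import Pool.Agent.NGP.NoZero

/-!
Same situation, and there is `y ∈ Z(Q)` such that the elements of `N(Q)` commuting with `y` are in `Q C(Q)`. Then `N(Q)`
centralises all elements `d` of order prime to `p` of `C(Q)`.

Let `L` be the subgroup of `exists_L` for `Q`.
(1) For `d ∈ L` and `m ∈ N(Q)` there is `l ∈ L` with `m d m⁻¹ = l d l⁻¹`: `trans_orbit` gives `n ∈ N(Q)` commuting with `y` and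
`n d n⁻¹ = m d m⁻¹`; `n = u c`, `u ∈ Q`, `c ∈ C(Q)`, `c = z l` (`exists_parts`), `u` and `z` commute with `l d l⁻¹ ∈ C(Q)`
(`u, z ∈ Q`), so `n d n⁻¹ = l d l⁻¹`, and `l ∈ L`.
(2) In the group `L` (as a type): `NN d d⁻¹ z ≡ [z = 1]` mod `p` for all `d, z : L`: the elements `x ∈ C(Q)` with `x` conjugate in
`G'` to `d` and `x⁻¹ z` conjugate to `d⁻¹` are exactly the `x ∈ L` with `x` conjugate in `L` to `d` and `x⁻¹ z` conjugate in `L`
to `d⁻¹` (`fuse` and (1); the order of such an `x` is that of `d`), so this is `inv_count`.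
(3) By `no_zero` no irreducible character of `L` has a zero, by `comm_of_no_zero` `L` is commutative, and by (1) `m d m⁻¹ = d`.
-/

set_option autoImplicit false

namespace Pool.Agent.NGP

open scoped Classical
open Pool.Agent.CTab

private theorem lab_isConj_order {G : Type} [Group G] {a b : G} (h : IsConj a b) :
    orderOf b = orderOf a := by
  obtain ⟨c, hc⟩ := isConj_iff.mp h
  rw [← hc]
  have := orderOf_injective (MulAut.conj c).toMonoidHom (MulAut.conj c).injective a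
  simpa using this

/-- step (1) -/
private theorem lab_step1 {p : ℕ} [Fact p.Prime] {G G' : Type} [Group G] [Fintype G] [Group G']
    [Fintype G'] {σ : ConjClasses G ≃ ConjClasses G'} (hσ : TabIso σ) (P : Sylow p G)
    (Q : Sylow p G') (hab : Ab (P : Subgroup G)) {y : G'} (hy : y ∈ (Q : Subgroup G'))
    (hy' : y ∈ Subgroup.centralizer ((Q : Subgroup G') : Set G'))
    (hreg : ∀ n ∈ Subgroup.normalizer ((Q : Subgroup G') : Set G'), n * y = y * n →
        ∃ u ∈ (Q : Subgroup G'), ∃ c ∈ Subgroup.centralizer ((Q : Subgroup G') : Set G'),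
          n = u * c)
    {L : Subgroup G'}
    (hL : ∀ g, g ∈ L ↔ g ∈ Subgroup.centralizer ((Q : Subgroup G') : Set G') ∧ ¬ p ∣ orderOf g)
    {d : G'} (hd : d ∈ L) {m : G'}
    (hm : m ∈ Subgroup.normalizer ((Q : Subgroup G') : Set G')) :
    ∃ l ∈ L, l * d * l⁻¹ = m * d * m⁻¹ := by
  have hd2 := (hL d).mp hd
  obtain ⟨n, hn, hny, hnd⟩ := trans_orbit hσ P Q hab hy hy' hd2.1 hd2.2 hm
  have hny' : n * y = y * n := by
    calc n * y = (n * y * n⁻¹) * n := by group
      _ = y * n := by rw [hny]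
  obtain ⟨u, hu, c, hc, huc⟩ := hreg n hn hny'
  obtain ⟨z, hz, hz', l, hl, hl', hzl⟩ := exists_parts (Fact.out : p.Prime) Q hc
  have hlL : l ∈ L := (hL l).mpr ⟨hl, hl'⟩
  have hconj : l * d * l⁻¹ ∈ L := L.mul_mem (L.mul_mem hlL hd) (L.inv_mem hlL)
  have hcen := ((hL _).mp hconj).1
  have h1 : u * (l * d * l⁻¹) = (l * d * l⁻¹) * u :=
    Subgroup.mem_centralizer_iff.mp hcen u hu
  have h2 : z * (l * d * l⁻¹) = (l * d * l⁻¹) * z :=
    Subgroup.mem_centralizer_iff.mp hcen z hz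
  refine ⟨l, hlL, ?_⟩
  rw [← hnd, huc, hzl]
  have e1 : u * (z * l) * d * (u * (z * l))⁻¹ = u * (z * (l * d * l⁻¹)) * z⁻¹ * u⁻¹ := by group
  rw [e1, h2]
  have e2 : u * (l * d * l⁻¹ * z) * z⁻¹ * u⁻¹ = (u * (l * d * l⁻¹)) * u⁻¹ := by group
  rw [e2, h1]
  group

/-- step (2) -/
private theorem lab_step2 {p : ℕ} [Fact p.Prime] {G G' : Type} [Group G] [Fintype G] [Group G']
    [Fintype G'] {σ : ConjClasses G ≃ ConjClasses G'} (hσ : TabIso σ) (P : Sylow p G)
    (Q : Sylow p G') (hab : Ab (P : Subgroup G)) {y : G'} (hy : y ∈ (Q : Subgroup G'))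
    (hy' : y ∈ Subgroup.centralizer ((Q : Subgroup G') : Set G'))
    (hreg : ∀ n ∈ Subgroup.normalizer ((Q : Subgroup G') : Set G'), n * y = y * n →
        ∃ u ∈ (Q : Subgroup G'), ∃ c ∈ Subgroup.centralizer ((Q : Subgroup G') : Set G'),
          n = u * c)
    {L : Subgroup G'}
    (hL : ∀ g, g ∈ L ↔ g ∈ Subgroup.centralizer ((Q : Subgroup G') : Set G') ∧ ¬ p ∣ orderOf g)
    (d z : L) :
    NN d d⁻¹ z ≡ (if z = 1 then 1 else 0) [MOD p] := by
  have key : ∀ (e : L) (x : G'), x ∈ Subgroup.centralizer ((Q : Subgroup G') : Set G') →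
      IsConj (e : G') x → ∃ hx : x ∈ L, IsConj e ⟨x, hx⟩ := by
    intro e x hx hex
    have he2 := (hL e).mp e.2
    have hxL : x ∈ L := (hL x).mpr ⟨hx, by rw [lab_isConj_order hex]; exact he2.2⟩
    refine ⟨hxL, ?_⟩
    obtain ⟨n, hn, hne⟩ := fuse Q he2.1 hx hex
    obtain ⟨l, hl, hle⟩ := lab_step1 hσ P Q hab hy hy' hreg hL e.2 hn
    rw [isConj_iff]
    refine ⟨⟨l, hl⟩, ?_⟩
    apply Subtype.ext
    simp only [Subgroup.coe_mul, Subgroup.coe_inv]
    rw [hle, hne]
  have hconjmap : ∀ a b : L, IsConj a b → IsConj (a : G') (b : G') := by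
    intro a b h
    obtain ⟨c, hc⟩ := isConj_iff.mp h
    exact isConj_iff.mpr ⟨(c : G'), by rw [← hc]; simp⟩
  have hzc : (z : G') ∈ Subgroup.centralizer ((Q : Subgroup G') : Set G') := ((hL z).mp z.2).1
  have hd2 := (hL d).mp d.2
  have hcount := inv_count hσ P Q hab (d := (d : G')) (z := (z : G')) hd2.1 hd2.2 hzc
  have hcard : NN d d⁻¹ z = Nat.card {x : G' // (IsConj (d : G') x ∧
      IsConj (d : G')⁻¹ (x⁻¹ * (z : G'))) ∧
      x ∈ Subgroup.centralizer ((Q : Subgroup G') : Set G')} := by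
    unfold NN
    refine Nat.card_congr (Equiv.ofBijective (fun x => ⟨(x.1 : G'), ?_⟩) ⟨?_, ?_⟩)
    · refine ⟨⟨hconjmap _ _ x.2.1, ?_⟩, ((hL _).mp x.1.2).1⟩
      have := hconjmap _ _ x.2.2
      simpa using this
    · intro x x' h
      have h1 : (x.1 : G') = (x'.1 : G') := by
        simpa using congrArg Subtype.val h
      exact Subtype.ext (Subtype.ext h1)
    · intro x
      obtain ⟨x, ⟨hx1, hx2⟩, hx3⟩ := x
      obtain ⟨hxL, hx1'⟩ := key d x hx3 hx1
      have hc : x⁻¹ * (z : G') ∈ Subgroup.centralizer ((Q : Subgroup G') : Set G') :=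
        Subgroup.mul_mem _ (Subgroup.inv_mem _ hx3) hzc
      obtain ⟨hxL', hx2'⟩ := key d⁻¹ (x⁻¹ * (z : G')) hc (by simpa using hx2)
      refine ⟨⟨⟨x, hxL⟩, hx1', ?_⟩, rfl⟩
      have : (⟨x⁻¹ * (z : G'), hxL'⟩ : L) = (⟨x, hxL⟩ : L)⁻¹ * z := by
        apply Subtype.ext
        simp
      rw [← this]
      exact hx2'
  rw [hcard]
  have hz1 : ((z : G') = 1) ↔ z = 1 := by
    constructor
    · intro h; exact Subtype.ext h
    · intro h; rw [h]; rfl
  by_cases h : z = 1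
  · rw [if_pos h]
    rw [if_pos (hz1.mpr h)] at hcount
    exact hcount
  · rw [if_neg h]
    rw [if_neg (fun h' => h (hz1.mp h'))] at hcount
    exact hcount

theorem central {p : ℕ} [Fact p.Prime] {G G' : Type} [Group G] [Fintype G] [Group G']
    [Fintype G'] {σ : ConjClasses G ≃ ConjClasses G'} (hσ : TabIso σ) (P : Sylow p G)
    (Q : Sylow p G') (hab : Ab (P : Subgroup G)) {y : G'} (hy : y ∈ (Q : Subgroup G'))
    (hy' : y ∈ Subgroup.centralizer ((Q : Subgroup G') : Set G'))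
    (hreg : ∀ n ∈ Subgroup.normalizer ((Q : Subgroup G') : Set G'), n * y = y * n →
        ∃ u ∈ (Q : Subgroup G'), ∃ c ∈ Subgroup.centralizer ((Q : Subgroup G') : Set G'),
          n = u * c) :
    ∀ d ∈ Subgroup.centralizer ((Q : Subgroup G') : Set G'), ¬ p ∣ orderOf d →
      ∀ m ∈ Subgroup.normalizer ((Q : Subgroup G') : Set G'), m * d * m⁻¹ = d := by
  intro d hd hd' m hm
  obtain ⟨L, hLc, hL⟩ := exists_L Q
  have hdL : d ∈ L := (hL d).mpr ⟨hd, hd'⟩
  have hcomm : ∀ a b : L, a * b = b * a := by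
    apply comm_of_no_zero
    intro χ hχ g
    refine no_zero (Fact.out : p.Prime) hLc (fun z => ?_) hχ
    convert lab_step2 hσ P Q hab hy hy' hreg hL g z
  obtain ⟨l, hl, hle⟩ := lab_step1 hσ P Q hab hy hy' hreg hL hdL hm
  rw [← hle]
  have := congrArg Subtype.val (hcomm ⟨l, hl⟩ ⟨d, hdL⟩)
  simp only [Subgroup.coe_mul] at this
  rw [this]
  group

end Pool.Agent.NGP
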