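import Mathlib

/-!
A commutative `p'`-group of automorphisms of a finite abelian `p`-group has a regular orbit.

For `w ∈ W` let `n = orderOf w` (prime to `p`), `N_w a = Σ_{j<n} w^j a` and `T_w a = n a - N_w a`. All these
endomorphisms commute. Facts: (1) if `w a = a` then `T_w a = 0`; (2) `w (N_w a) = N_w a`, so `N_w N_w = n N_w`,
`N_w T_w = 0` and `T_w T_w = n T_w`; (3) if `T_w = 0` then `n a = N_w a` is fixed by `w`, so `n (w a - a) = 0` and `w a = a`
(`n` is prime to `p` and `A` is a `p`-group), so `w = 1`. Hence for `w ≠ 1` there is `z` with `T_w z ≠ 0`.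
Induction over a finite set `F` of nontrivial elements of `W`: there is `y` with `T_w y ≠ 0` for all `w ∈ F`. Step: let `y` be
good for `F` and `v ∉ F`. If `T_v y ≠ 0` done. Otherwise take `z` with `T_v z ≠ 0` and `y' = y + T_v z`:
`T_v y' = T_v T_v z = n_v T_v z ≠ 0`, and for `w ∈ F`, `N_v (T_w y') = T_w (N_v y) + T_w N_v T_v z = T_w (n_v y) =
n_v T_w y ≠ 0`, so `T_w y' ≠ 0`. For `F` = all nontrivial elements, `w y = y` implies `T_w y = 0`, so `w = 1`.
-/

set_option autoImplicit false

namespace Pool.Agent.NGP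

private theorem Reg_cop {p : ℕ} (hp : p.Prime) {A : Type} [AddCommGroup A]
    (hA : ∀ a : A, ∃ k : ℕ, p ^ k • a = 0) (n : ℕ) (hn : ¬ p ∣ n) (a : A) (h : n • a = 0) :
    a = 0 := by
  obtain ⟨k, hk⟩ := hA a
  have h1 : addOrderOf a ∣ n := addOrderOf_dvd_of_nsmul_eq_zero h
  have h2 : addOrderOf a ∣ p ^ k := addOrderOf_dvd_of_nsmul_eq_zero hk
  have h3 : Nat.Coprime n (p ^ k) :=
    Nat.Coprime.pow_right k ((Nat.Prime.coprime_iff_not_dvd hp).2 hn).symm
  have h4 : addOrderOf a ∣ 1 := by
    have := Nat.dvd_gcd h1 h2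
    rwa [h3] at this
  exact AddMonoid.addOrderOf_eq_one_iff.1 (Nat.dvd_one.1 h4)

private noncomputable def Reg_N {A W : Type} [AddCommGroup A] [CommGroup W]
    [DistribMulAction W A] (w : W) (a : A) : A :=
  ∑ j ∈ Finset.range (orderOf w), w ^ j • a

private noncomputable def Reg_T {A W : Type} [AddCommGroup A] [CommGroup W]
    [DistribMulAction W A] (w : W) (a : A) : A :=
  orderOf w • a - Reg_N w a

section

variable {A W : Type} [AddCommGroup A] [CommGroup W] [DistribMulAction W A]

private theorem Reg_N_add (w : W) (a b : A) : Reg_N w (a + b) = Reg_N w a + Reg_N w b := by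
  simp only [Reg_N, smul_add, Finset.sum_add_distrib]

private theorem Reg_N_zero (w : W) : Reg_N w (0 : A) = 0 := by
  simp [Reg_N]

private theorem Reg_N_nsmul (w : W) (n : ℕ) (a : A) : Reg_N w (n • a) = n • Reg_N w a := by
  unfold Reg_N
  rw [Finset.smul_sum]
  exact Finset.sum_congr rfl fun j _ => smul_comm _ _ _

private theorem Reg_N_sub (w : W) (a b : A) : Reg_N w (a - b) = Reg_N w a - Reg_N w b := by
  simp only [Reg_N, smul_sub, Finset.sum_sub_distrib]

private theorem Reg_T_add (w : W) (a b : A) : Reg_T w (a + b) = Reg_T w a + Reg_T w b := by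
  unfold Reg_T
  rw [Reg_N_add, smul_add]
  abel

private theorem Reg_T_zero (w : W) : Reg_T w (0 : A) = 0 := by
  unfold Reg_T
  rw [Reg_N_zero, smul_zero, sub_zero]

private theorem Reg_T_nsmul (w : W) (n : ℕ) (a : A) : Reg_T w (n • a) = n • Reg_T w a := by
  unfold Reg_T
  rw [Reg_N_nsmul, smul_sub, smul_comm]

private theorem Reg_N_comm (w v : W) (a : A) : Reg_N w (Reg_N v a) = Reg_N v (Reg_N w a) := by
  unfold Reg_N
  simp only [Finset.smul_sum]
  rw [Finset.sum_comm]
  refine Finset.sum_congr rfl fun i _ => Finset.sum_congr rfl fun j _ => ?_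
  rw [smul_smul, smul_smul, mul_comm]

private theorem Reg_NT_comm (w v : W) (a : A) : Reg_N v (Reg_T w a) = Reg_T w (Reg_N v a) := by
  unfold Reg_T
  rw [Reg_N_sub, Reg_N_nsmul, Reg_N_comm]

private theorem Reg_smul_N [Finite W] (w : W) (a : A) : w • Reg_N w a = Reg_N w a := by
  unfold Reg_N
  rw [Finset.smul_sum]
  have h0 : 0 < orderOf w := orderOf_pos w
  obtain ⟨m, hm⟩ : ∃ m, orderOf w = m + 1 := ⟨orderOf w - 1, by omega⟩
  have h1 : w ^ (m + 1) = 1 := by
    rw [← hm]
    exact pow_orderOf_eq_one w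
  rw [hm, Finset.sum_range_succ, Finset.sum_range_succ' (fun j => w ^ j • a)]
  rw [smul_smul, ← pow_succ', h1, pow_zero]
  congr 1
  refine Finset.sum_congr rfl fun j _ => ?_
  rw [smul_smul, ← pow_succ']

private theorem Reg_pow_smul_N [Finite W] (w : W) (a : A) (j : ℕ) :
    w ^ j • Reg_N w a = Reg_N w a := by
  induction j with
  | zero => rw [pow_zero, one_smul]
  | succ j ih => rw [pow_succ, mul_smul, Reg_smul_N, ih]

private theorem Reg_NN [Finite W] (w : W) (a : A) :
    Reg_N w (Reg_N w a) = orderOf w • Reg_N w a := by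
  have h : Reg_N w (Reg_N w a) = ∑ j ∈ Finset.range (orderOf w), w ^ j • Reg_N w a := rfl
  rw [h, Finset.sum_congr rfl fun j _ => Reg_pow_smul_N w a j, Finset.sum_const,
    Finset.card_range]

private theorem Reg_NT [Finite W] (w : W) (a : A) : Reg_N w (Reg_T w a) = 0 := by
  unfold Reg_T
  rw [Reg_N_sub, Reg_N_nsmul, Reg_NN, sub_self]

private theorem Reg_TT [Finite W] (w : W) (a : A) :
    Reg_T w (Reg_T w a) = orderOf w • Reg_T w a := by
  have h : Reg_T w (Reg_T w a) = orderOf w • Reg_T w a - Reg_N w (Reg_T w a) := rfl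
  rw [h, Reg_NT, sub_zero]

private theorem Reg_T_fix (w : W) (a : A) (h : w • a = a) : Reg_T w a = 0 := by
  have h1 : ∀ j : ℕ, w ^ j • a = a := by
    intro j
    induction j with
    | zero => rw [pow_zero, one_smul]
    | succ j ih => rw [pow_succ, mul_smul, h, ih]
  unfold Reg_T Reg_N
  rw [Finset.sum_congr rfl fun j _ => h1 j, Finset.sum_const, Finset.card_range, sub_self]

private theorem Reg_fix_of_T [Finite W] {p : ℕ} (hp : p.Prime)
    (hA : ∀ a : A, ∃ k : ℕ, p ^ k • a = 0) (w : W) (hw : ¬ p ∣ orderOf w)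
    (h : ∀ a : A, Reg_T w a = 0) (a : A) : w • a = a := by
  have h1 : orderOf w • a = Reg_N w a := sub_eq_zero.1 (h a)
  have h2 : orderOf w • (w • a - a) = 0 := by
    rw [smul_sub, smul_comm, h1, Reg_smul_N, sub_self]
  exact sub_eq_zero.1 (Reg_cop hp hA _ hw _ h2)

end

theorem exists_regular {p : ℕ} (hp : p.Prime) {A W : Type} [AddCommGroup A] [Finite A]
    (hA : ∀ a : A, ∃ k : ℕ, p ^ k • a = 0) [CommGroup W] [Finite W] (hW : ¬ p ∣ Nat.card W)
    [DistribMulAction W A] (hf : ∀ w : W, (∀ a : A, w • a = a) → w = 1) :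
    ∃ y : A, ∀ w : W, w • y = y → w = 1 := by
  classical
  have hord : ∀ w : W, ¬ p ∣ orderOf w := by
    intro w h
    exact hW (h.trans (orderOf_dvd_natCard w))
  have hex : ∀ w : W, w ≠ 1 → ∃ z : A, Reg_T w z ≠ 0 := by
    intro w hw
    by_contra hcon
    push Not at hcon
    exact hw (hf w fun a => Reg_fix_of_T hp hA w (hord w) hcon a)
  have hind : ∀ F : Finset W, (∀ w ∈ F, w ≠ 1) → ∃ y : A, ∀ w ∈ F, Reg_T w y ≠ 0 := by
    intro F
    induction F using Finset.induction_on with
    | empty =>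
      intro _
      exact ⟨0, fun w hw => absurd hw (Finset.notMem_empty w)⟩
    | insert v F hv ih =>
      intro hF
      obtain ⟨y, hy⟩ := ih fun w hw => hF w (Finset.mem_insert_of_mem hw)
      by_cases h0 : Reg_T v y = 0
      · obtain ⟨z, hz⟩ := hex v (hF v (Finset.mem_insert_self v F))
        refine ⟨y + Reg_T v z, ?_⟩
        intro w hw
        rw [Finset.mem_insert] at hw
        rcases hw with rfl | hw
        · rw [Reg_T_add, h0, zero_add, Reg_TT]
          intro h
          exact hz (Reg_cop hp hA _ (hord w) _ h)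
        · intro h
          have h1 : Reg_N v (Reg_T w (y + Reg_T v z)) = 0 := by
            rw [h, Reg_N_zero]
          have h2 : Reg_N v y = orderOf v • y := (sub_eq_zero.1 h0).symm
          rw [Reg_NT_comm, Reg_N_add, Reg_NT, add_zero, h2, Reg_T_nsmul] at h1
          exact hy w hw (Reg_cop hp hA _ (hord v) _ h1)
      · refine ⟨y, ?_⟩
        intro w hw
        rw [Finset.mem_insert] at hw
        rcases hw with rfl | hw
        · exact h0
        · exact hy w hw
  have : Fintype W := Fintype.ofFinite W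
  obtain ⟨y, hy⟩ := hind (Finset.univ.erase 1) fun w hw => Finset.ne_of_mem_erase hw
  refine ⟨y, fun w hw => ?_⟩
  by_contra hne
  exact hy w (Finset.mem_erase.2 ⟨hne, Finset.mem_univ w⟩) (Reg_T_fix w y hw)

end Pool.Agent.NGP
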