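import Pool.Agent.NGP.Defs
import Pool.Agent.NGP.Reg

/-!
A regular element of `Z(P)`. Let `A` be (the additive group of) `Z(P) = P ⊓ centralizer P` and let `t` be the generator
of `CycAut P`. Conjugation by `n ∈ N = normalizer P` is an automorphism `θ n` of `A`, `θ` is a homomorphism, trivial on `P`
and on the centraliser of `P`; so `θ n = (θ t) ^ k` for `n = t ^ k * u * c`. `W = zpowers (θ t)` (a commutative finite group
acting on `A`, faithfully by definition). Its order, the order of `θ t`, is prime to `p`: with `m` the index of `P` in `N`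
(prime to `p` as `P` is a Sylow subgroup of `G`) `t ^ m ∈ P`, so `(θ t) ^ m = 1`. `exists_regular` gives `y`. If
`n ∈ N` commutes with `y` then `(θ t) ^ k` fixes `y`, so `θ n = (θ t) ^ k = 1`, `n` commutes with `Z(P)` and `FaithZ` applies.
-/

set_option autoImplicit false

namespace Pool.Agent.NGP

open scoped Classical
open Pool.Agent.CTab

variable {G : Type} [Group G] [Fintype G]

/-- `exists_regular` for a cyclic group of automorphisms, in multiplicative notation -/
private lemma RegG_aux {p : ℕ} (hp : p.Prime) {Z : Type} [CommGroup Z] [Finite Z]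
    (hZ : ∀ z : Z, ∃ k : ℕ, z ^ (p ^ k) = 1) (φ : MulAut Z) (hφ : ¬ p ∣ orderOf φ) :
    ∃ y : Z, ∀ k : ℤ, (φ ^ k) y = y → φ ^ k = 1 := by
  have : Finite (MulAut Z) :=
    Finite.of_injective (fun e : MulAut Z => (e : Z → Z)) (fun a b h => by
      ext z
      exact congrFun h z)
  let cg : CommGroup (Subgroup.zpowers φ) :=
    { (inferInstance : Group (Subgroup.zpowers φ)) with
      mul_comm := fun a b => by
        obtain ⟨a, i, rfl⟩ := a
        obtain ⟨b, j, rfl⟩ := b
        exact Subtype.ext (zpow_mul_comm φ i j) }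
  let act : DistribMulAction (Subgroup.zpowers φ) (Additive Z) :=
    { smul := fun w a => Additive.ofMul ((w : MulAut Z) a.toMul)
      one_smul := fun a => rfl
      mul_smul := fun v w a => rfl
      smul_zero := fun w => by
        change Additive.ofMul ((w : MulAut Z) 1) = 0
        rw [map_one]
        rfl
      smul_add := fun w a b => by
        change Additive.ofMul ((w : MulAut Z) (a.toMul * b.toMul)) = _
        rw [map_mul]
        rfl }
  have hA : ∀ a : Additive Z, ∃ k : ℕ, p ^ k • a = 0 := fun a => by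
    obtain ⟨k, hk⟩ := hZ a.toMul
    exact ⟨k, by
      change Additive.ofMul (a.toMul ^ (p ^ k)) = 0
      rw [hk]
      rfl⟩
  have hW : ¬ p ∣ Nat.card (Subgroup.zpowers φ) := by
    rwa [Nat.card_zpowers]
  obtain ⟨y, hy⟩ := exists_regular (W := Subgroup.zpowers φ) hp hA hW (fun w hw => by
    apply Subtype.ext
    ext z
    have := hw (Additive.ofMul z)
    exact this)
  refine ⟨y.toMul, fun k hk => ?_⟩
  have := hy ⟨φ ^ k, ⟨k, rfl⟩⟩ (by
    change Additive.ofMul ((φ ^ k) y.toMul) = y
    rw [hk]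
    rfl)
  exact congrArg Subtype.val this

private def RegG_Z (P : Subgroup G) : Subgroup G := P ⊓ Subgroup.centralizer (P : Set G)

omit [Fintype G] in
private lemma RegG_comm {P : Subgroup G} {a b : G} (ha : a ∈ RegG_Z P) (hb : b ∈ RegG_Z P) :
    a * b = b * a :=
  (Subgroup.mem_centralizer_iff.1 hb.2 a ha.1)

omit [Fintype G] in
private lemma RegG_mem {P : Subgroup G} {n z : G} (hn : n ∈ Subgroup.normalizer (P : Set G))
    (hz : z ∈ RegG_Z P) : n * z * n⁻¹ ∈ RegG_Z P := by
  refine ⟨(Subgroup.mem_normalizer_iff.1 hn z).1 hz.1, ?_⟩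
  change _ ∈ Subgroup.centralizer (P : Set G)
  rw [Subgroup.mem_centralizer_iff]
  intro x hx
  have hn' : n⁻¹ ∈ Subgroup.normalizer (P : Set G) := Subgroup.inv_mem _ hn
  have hx' : n⁻¹ * x * n ∈ P := by
    have := (Subgroup.mem_normalizer_iff.1 hn' x).1 hx
    simpa using this
  have h := Subgroup.mem_centralizer_iff.1 hz.2 _ hx'
  have h2 : n * (n⁻¹ * x * n * z) * n⁻¹ = n * (z * (n⁻¹ * x * n)) * n⁻¹ := by rw [h]
  have e1 : n * (n⁻¹ * x * n * z) * n⁻¹ = x * (n * z * n⁻¹) := by group
  have e2 : n * (z * (n⁻¹ * x * n)) * n⁻¹ = n * z * n⁻¹ * x := by group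
  rw [e1, e2] at h2
  exact h2

private def RegG_th (P : Subgroup G) : Subgroup.normalizer (P : Set G) →* MulAut (RegG_Z P) where
  toFun n :=
    { toFun := fun z => ⟨n * z * (n : G)⁻¹, RegG_mem n.2 z.2⟩
      invFun := fun z => ⟨(n : G)⁻¹ * z * n, by
        have := RegG_mem (Subgroup.inv_mem _ n.2) z.2
        simpa using this⟩
      left_inv := fun z => by
        apply Subtype.ext
        simp [mul_assoc]
      right_inv := fun z => by
        apply Subtype.ext
        simp [mul_assoc]
      map_mul' := fun a b => by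
        apply Subtype.ext
        simp [mul_assoc] }
  map_one' := by
    ext z
    simp
  map_mul' a b := by
    ext z
    simp [mul_assoc]

omit [Fintype G] in
private lemma RegG_th_apply (P : Subgroup G) (n : Subgroup.normalizer (P : Set G))
    (z : RegG_Z P) : ((RegG_th P n z : RegG_Z P) : G) = n * z * (n : G)⁻¹ := rfl

private lemma RegG_th_one {P : Subgroup G} {n : Subgroup.normalizer (P : Set G)}
    (h : ∀ z ∈ RegG_Z P, (n : G) * z = z * n) : RegG_th P n = 1 := by
  ext z
  rw [RegG_th_apply, h z z.2]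
  simp

theorem exists_reg {p : ℕ} [Fact p.Prime] (P : Sylow p G) (hc : CycAut (P : Subgroup G))
    (hf : FaithZ (P : Subgroup G)) :
    ∃ y ∈ (P : Subgroup G), y ∈ Subgroup.centralizer ((P : Subgroup G) : Set G) ∧
      ∀ n ∈ Subgroup.normalizer ((P : Subgroup G) : Set G), n * y = y * n →
        ∃ u ∈ (P : Subgroup G), ∃ c ∈ Subgroup.centralizer ((P : Subgroup G) : Set G),
          n = u * c := by
  have hp : p.Prime := Fact.out
  obtain ⟨t, ht, hgen⟩ := hc
  set Q : Subgroup G := (P : Subgroup G) with hQ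
  let cg : CommGroup (RegG_Z Q) :=
    { (inferInstance : Group (RegG_Z Q)) with
      mul_comm := fun a b => Subtype.ext (RegG_comm a.2 b.2) }
  let θ := RegG_th Q
  let T : Subgroup.normalizer (Q : Set G) := ⟨t, ht⟩
  -- the order of `θ T`
  have hT : ¬ p ∣ orderOf (θ T) := by
    intro hd
    have hidx : ¬ p ∣ Q.index := P.not_dvd_index
    have hle : Q ≤ Subgroup.normalizer (Q : Set G) := Subgroup.le_normalizer
    have hrel : Q.relIndex (Subgroup.normalizer (Q : Set G)) ∣ Q.index :=
      Dvd.intro _ (Subgroup.relIndex_mul_index hle)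
    have hpow : T ^ (Q.subgroupOf (Subgroup.normalizer (Q : Set G))).index ∈
        Q.subgroupOf (Subgroup.normalizer (Q : Set G)) := Subgroup.pow_index_mem _ _
    have hone : (θ T) ^ (Q.subgroupOf (Subgroup.normalizer (Q : Set G))).index = 1 := by
      rw [← map_pow]
      apply RegG_th_one
      intro z hz
      exact Subgroup.mem_centralizer_iff.1 hz.2 _ hpow
    exact hidx (hd.trans ((orderOf_dvd_of_pow_eq_one hone).trans hrel))
  obtain ⟨y, hy⟩ := RegG_aux hp (Z := RegG_Z Q) (fun z => by
    obtain ⟨k, hk⟩ := P.isPGroup' ⟨(z : G), z.2.1⟩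
    refine ⟨k, Subtype.ext ?_⟩
    have := congrArg Subtype.val hk
    simpa using this) (θ T) hT
  refine ⟨y, y.2.1, y.2.2, fun n hn hny => ?_⟩
  obtain ⟨k, u, hu, c, hcc, hnk⟩ := hgen n hn
  have hcN : c ∈ Subgroup.normalizer (Q : Set G) := by
    rw [Subgroup.mem_normalizer_iff]
    intro h
    constructor
    · intro hh
      have := Subgroup.mem_centralizer_iff.1 hcc h hh
      have e : c * h * c⁻¹ = h := by rw [← this]; group
      rw [e]
      exact hh
    · intro hh
      have := Subgroup.mem_centralizer_iff.1 hcc _ hh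
      have e : h = c * h * c⁻¹ := by
        have e2 : c⁻¹ * (c * h * c⁻¹ * c) = c⁻¹ * (c * (c * h * c⁻¹)) := by rw [this]
        have e3 : c⁻¹ * (c * h * c⁻¹ * c) = h := by group
        have e4 : c⁻¹ * (c * (c * h * c⁻¹)) = c * h * c⁻¹ := by group
        rw [e3, e4] at e2
        exact e2
      rw [e]
      exact hh
  have huN : u ∈ Subgroup.normalizer (Q : Set G) := Subgroup.le_normalizer hu
  have hθu : θ ⟨u, huN⟩ = 1 := RegG_th_one (fun z hz =>
    Subgroup.mem_centralizer_iff.1 hz.2 _ hu)
  have hθc : θ ⟨c, hcN⟩ = 1 := RegG_th_one (fun z hz =>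
    (Subgroup.mem_centralizer_iff.1 hcc _ hz.1).symm)
  have hθn : θ ⟨n, hn⟩ = (θ T) ^ k := by
    have e : (⟨n, hn⟩ : Subgroup.normalizer (Q : Set G)) = T ^ k * ⟨u, huN⟩ * ⟨c, hcN⟩ := by
      apply Subtype.ext
      exact hnk
    rw [e, map_mul, map_mul, hθu, hθc, mul_one, mul_one, map_zpow]
  have hfix : ((θ T) ^ k) y = y := by
    rw [← hθn]
    apply Subtype.ext
    rw [RegG_th_apply]
    change n * (y : G) * n⁻¹ = y
    rw [hny]
    group
  have h1 := hy k hfix
  rw [← hθn] at h1
  refine hf n hn (fun z hz hzc => ?_)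
  have h2 : ((θ ⟨n, hn⟩ ⟨z, ⟨hz, hzc⟩⟩ : RegG_Z Q) : G) = z := by
    rw [h1]
    rfl
  rw [RegG_th_apply] at h2
  change n * z * n⁻¹ = z at h2
  calc n * z = n * z * n⁻¹ * n := by group
    _ = z * n := by rw [h2]

end Pool.Agent.NGP
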