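import Pool.Agent.NGP.Defs
import Pool.Agent.NGP.PPart
import Pool.Agent.NGP.RegG
import Pool.Agent.NGP.LAb

/-!
`ab_of_cyc`: if `N(Q)` is generated by `t` modulo `Q C(Q)` and centralises the elements of order prime to `p` of `C(Q)` then
`N(Q)/Q` is abelian: by `exists_parts` `Q C(Q) = Q L₀` with `L₀` the set of elements of order prime to `p` of `C(Q)`, so every
element of `N(Q)` is `t ^ k * u * l`, `u ∈ Q`, `l ∈ L₀`, `l` commutes with `N(Q)`. Modulo the normal subgroup `Q` of `N(Q)`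
two such elements commute: for `a = t ^ i * u * l`, `b = t ^ j * v * l'`, `a * b * a⁻¹ * b⁻¹ ∈ Q`.

`ab_transfer`: `exists_reg` for `Q`, `central`, `ab_of_cyc`.
-/

set_option autoImplicit false

namespace Pool.Agent.NGP

open scoped Classical
open Pool.Agent.CTab

private theorem Main_conj_mem {G : Type} [Group G] {Q : Subgroup G} {n q : G}
    (hn : n ∈ Subgroup.normalizer (Q : Set G)) (hq : q ∈ Q) : n * q * n⁻¹ ∈ Q :=
  (Subgroup.mem_normalizer_iff.1 hn q).1 hq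

private theorem Main_conj_mem' {G : Type} [Group G] {Q : Subgroup G} {n q : G}
    (hn : n ∈ Subgroup.normalizer (Q : Set G)) (hq : q ∈ Q) : n⁻¹ * q * n ∈ Q := by
  have := Main_conj_mem (Subgroup.inv_mem _ hn) hq
  simpa using this

private theorem Main_alg {G : Type} [Group G] (s r u v : G) (hsr : s * r = r * s) :
    (s * u) * (r * v) * (s * u)⁻¹ * (r * v)⁻¹ =
      (s * r) * (((r⁻¹ * u * r) * v * u⁻¹) * (s⁻¹ * v⁻¹ * s)) * (s * r)⁻¹ := by
  have h1 : (s * r)⁻¹ = s⁻¹ * r⁻¹ := by rw [hsr]; group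
  rw [h1]
  group

private theorem Main_drop {G : Type} [Group G] (a b l m : G) (h1 : l * a = a * l)
    (h2 : l * b = b * l) (h3 : l * m = m * l) (h4 : m * a = a * m) (h5 : m * b = b * m) :
    (a * l) * (b * m) * (a * l)⁻¹ * (b * m)⁻¹ = a * b * a⁻¹ * b⁻¹ := by
  have c1 : Commute l a := h1
  have c2 : Commute l b := h2
  have c3 : Commute l m := h3
  have c4 : Commute m a := h4
  have c5 : Commute m b := h5
  have e2 : (a * l)⁻¹ * (b * m)⁻¹ = a⁻¹ * b⁻¹ * (l⁻¹ * m⁻¹) := by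
    have c7 : Commute l⁻¹ (a⁻¹ * b⁻¹) := (c1.inv_inv).mul_right (c2.inv_inv)
    have c8 : Commute m⁻¹ b⁻¹ := c5.inv_inv
    rw [mul_inv_rev, mul_inv_rev, c8.eq, c1.inv_inv.eq]
    have : a⁻¹ * l⁻¹ * (b⁻¹ * m⁻¹) = a⁻¹ * (l⁻¹ * b⁻¹) * m⁻¹ := by group
    rw [this, c2.inv_inv.eq]
    group
  have c9 : Commute (l⁻¹ * m⁻¹) (a * b * a⁻¹ * b⁻¹) := by
    refine Commute.mul_left ?_ ?_
    · exact (((c1.mul_right c2).mul_right c1.inv_right).mul_right c2.inv_right).inv_left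
    · exact (((c4.mul_right c5).mul_right c4.inv_right).mul_right c5.inv_right).inv_left
  have e3 : (a * l) * (b * m) = (a * b) * (m * l) := by
    rw [mul_assoc a l, ← mul_assoc l b m, c2.eq, mul_assoc b l m, c3.eq, mul_assoc]
  rw [mul_assoc ((a * l) * (b * m)), e2, e3]
  have c10 : Commute (m * l) (a⁻¹ * b⁻¹) :=
    Commute.mul_left ((c4.inv_right).mul_right c5.inv_right)
      ((c1.inv_right).mul_right c2.inv_right)
  have : a * b * (m * l) * (a⁻¹ * b⁻¹ * (l⁻¹ * m⁻¹)) =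
      a * b * ((m * l) * (a⁻¹ * b⁻¹)) * (l⁻¹ * m⁻¹) := by group
  rw [this, c10.eq]
  group

theorem ab_of_cyc {p : ℕ} [Fact p.Prime] {G : Type} [Group G] [Fintype G] (Q : Sylow p G)
    (hc : CycAut (Q : Subgroup G))
    (h : ∀ d ∈ Subgroup.centralizer ((Q : Subgroup G) : Set G), ¬ p ∣ orderOf d →
      ∀ m ∈ Subgroup.normalizer ((Q : Subgroup G) : Set G), m * d * m⁻¹ = d) :
    Ab (Q : Subgroup G) := by
  have hp : p.Prime := Fact.out
  obtain ⟨t, ht, hgen⟩ := hc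
  have key : ∀ x ∈ Subgroup.normalizer ((Q : Subgroup G) : Set G), ∃ k : ℤ,
      ∃ u ∈ (Q : Subgroup G), ∃ l : G, x = t ^ k * u * l ∧
        l ∈ Subgroup.normalizer ((Q : Subgroup G) : Set G) ∧
        ∀ m ∈ Subgroup.normalizer ((Q : Subgroup G) : Set G), l * m = m * l := by
    intro x hx
    obtain ⟨k, u, hu, c, hc, hxe⟩ := hgen x hx
    obtain ⟨z, hz, hz', l, hl, hl', hzl⟩ := exists_parts hp Q hc
    refine ⟨k, u * z, mul_mem hu hz, l, ?_, ?_, ?_⟩
    · rw [hxe, hzl]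
      group
    · exact Subgroup.centralizer_le_normalizer _ hl
    · intro m hm
      have := h l hl hl' m hm
      rw [mul_inv_eq_iff_eq_mul] at this
      exact this.symm
  have hQN : (Q : Subgroup G) ≤ Subgroup.normalizer ((Q : Subgroup G) : Set G) :=
    Subgroup.le_normalizer
  intro a ha b hb
  obtain ⟨i, u, hu, l, hae, hlN, hl⟩ := key a ha
  obtain ⟨j, v, hv, m, hbe, hmN, hm⟩ := key b hb
  have hti : t ^ i ∈ Subgroup.normalizer ((Q : Subgroup G) : Set G) :=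
    Subgroup.zpow_mem _ ht i
  have htj : t ^ j ∈ Subgroup.normalizer ((Q : Subgroup G) : Set G) :=
    Subgroup.zpow_mem _ ht j
  have ha' : t ^ i * u ∈ Subgroup.normalizer ((Q : Subgroup G) : Set G) :=
    mul_mem hti (hQN hu)
  have hb' : t ^ j * v ∈ Subgroup.normalizer ((Q : Subgroup G) : Set G) :=
    mul_mem htj (hQN hv)
  rw [hae, hbe, Main_drop _ _ _ _ (hl _ ha') (hl _ hb') (hl _ hmN) (hm _ ha') (hm _ hb'),
    Main_alg _ _ _ _ (Commute.zpow_zpow_self t i j).eq]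
  refine Main_conj_mem (mul_mem hti htj) (mul_mem (mul_mem (mul_mem ?_ hv) (inv_mem hu)) ?_)
  · exact Main_conj_mem' htj hu
  · exact Main_conj_mem' hti (inv_mem hv)

theorem ab_transfer {p : ℕ} [Fact p.Prime] {G G' : Type} [Group G] [Fintype G] [Group G']
    [Fintype G'] {σ : ConjClasses G ≃ ConjClasses G'} (hσ : TabIso σ) (P : Sylow p G)
    (Q : Sylow p G') (hab : Ab (P : Subgroup G)) (hc : CycAut (Q : Subgroup G'))
    (hf : FaithZ (Q : Subgroup G')) : Ab (Q : Subgroup G') := by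
  obtain ⟨y, hy, hy', hreg⟩ := exists_reg Q hc hf
  exact ab_of_cyc Q hc (central hσ P Q hab hy hy' hreg)

end Pool.Agent.NGP
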