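import Pool.Agent.NGP.Cyc

/-!
Abelian Sylow `2`-subgroups of rank at most two have a cyclic automizer.
-/

set_option autoImplicit false

namespace Pool.Agent.NGP

open scoped Classical
open Pool.Agent.CTab

variable {G : Type} [Group G] [Fintype G]

/-- the action of the automorphisms on the involutions -/
def Two_toPerm (H : Type) [Group H] : MulAut H →* Equiv.Perm {x : H // x ≠ 1 ∧ x ^ 2 = 1} where
  toFun φ := φ.toEquiv.subtypeEquiv (fun x => by
    have h1 : (φ.toEquiv x) ^ 2 = 1 ↔ x ^ 2 = 1 := by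
      show (φ x) ^ 2 = 1 ↔ x ^ 2 = 1
      rw [← map_pow]
      exact EmbeddingLike.map_eq_one_iff
    have h2 : φ.toEquiv x ≠ 1 ↔ x ≠ 1 := by
      show φ x ≠ 1 ↔ x ≠ 1
      simp
    rw [h1, h2])
  map_one' := by
    ext x
    rfl
  map_mul' := by
    intro φ ψ
    ext x
    rfl

theorem Two_fix {H : Type} [CommGroup H] {φ : MulAut H} {m : ℕ} (hm : ¬ 2 ∣ m) (hφ : φ ^ m = 1)
    (h2 : ∀ x : H, x ^ 2 = 1 → φ x = x) (k : ℕ) : ∀ x : H, x ^ 2 ^ k = 1 → φ x = x := by
  induction k with
  | zero =>
    intro x hx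
    rw [pow_zero, pow_one] at hx
    rw [hx, map_one]
  | succ k ih =>
    intro x hx
    have h3 : (x ^ 2) ^ 2 ^ k = 1 := by
      rw [← pow_mul, ← pow_succ']
      exact hx
    have h4 := ih (x ^ 2) h3
    set y : H := φ x * x⁻¹ with hy
    have h5 : y ^ 2 = 1 := by
      rw [hy, mul_pow, ← map_pow, h4, ← mul_pow, mul_inv_cancel, one_pow]
    have h6 : φ y = y := h2 y h5
    have h7 : φ x = y * x := by rw [hy, inv_mul_cancel_right]
    have h8 : ∀ j : ℕ, (φ ^ j) x = y ^ j * x := by
      intro j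
      induction j with
      | zero => simp
      | succ j ihj =>
        rw [pow_succ', MulAut.mul_apply, ihj, map_mul, map_pow, h6, h7, pow_succ]
        exact (mul_assoc _ _ _).symm
    have h9 := h8 m
    rw [hφ, MulAut.one_apply] at h9
    have h10 : y ^ m = 1 := mul_eq_right.mp h9.symm
    have h11 : y = 1 := by
      have h12 : orderOf y ∣ 2 := orderOf_dvd_of_pow_eq_one h5
      have h13 : orderOf y ∣ m := orderOf_dvd_of_pow_eq_one h10
      have h14 : Nat.Coprime 2 m := (Nat.Prime.coprime_iff_not_dvd Nat.prime_two).mpr hm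
      exact orderOf_eq_one_iff.mp (Nat.eq_one_of_dvd_coprimes h14 h12 h13)
    rw [h7, h11, one_mul]

theorem cyc_of_two (P : Sylow 2 G)
    (hcomm : ∀ x ∈ (P : Subgroup G), ∀ y ∈ (P : Subgroup G), x * y = y * x)
    (h4 : Nat.card {x : (P : Subgroup G) // x ^ 2 = 1} ≤ 4) :
    CycAut (P : Subgroup G) := by
  have hR := Cyc_range P hcomm
  apply Cyc_of_range
  set R := (P : Subgroup G).normalizerMonoidHom.range with hRdef
  letI : CommGroup (P : Subgroup G) :=
    { (inferInstance : Group (P : Subgroup G)) with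
      mul_comm := fun a b => Subtype.ext (hcomm a a.2 b b.2) }
  have hinj : Function.Injective ((Two_toPerm (P : Subgroup G)).comp R.subtype) := by
    rw [injective_iff_map_eq_one]
    intro v hv
    have hv1 : ∀ x : (P : Subgroup G), x ^ 2 = 1 → (v : MulAut (P : Subgroup G)) x = x := by
      intro x hx
      by_cases hx1 : x = 1
      · rw [hx1, map_one]
      · have h5 := congrArg (fun f : Equiv.Perm {x : (P : Subgroup G) // x ≠ 1 ∧ x ^ 2 = 1} =>
          ((f ⟨x, hx1, hx⟩ : {x : (P : Subgroup G) // x ≠ 1 ∧ x ^ 2 = 1}) : (P : Subgroup G))) hv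
        exact h5
    have hv2 : (v : MulAut (P : Subgroup G)) ^ Nat.card R = 1 := by
      have h5 : v ^ Nat.card R = 1 := pow_card_eq_one'
      have h6 := congrArg Subtype.val h5
      rw [Subgroup.coe_pow] at h6
      exact h6
    apply Subtype.ext
    ext x
    obtain ⟨k, hk⟩ := P.2 x
    have h6 := Two_fix hR hv2 hv1 k x hk
    rw [h6]
    rfl
  have h1 : Nat.card R ∣ 6 := by
    have h2 : Nat.card R ∣ Nat.card (Equiv.Perm {x : (P : Subgroup G) // x ≠ 1 ∧ x ^ 2 = 1}) :=
      Subgroup.card_dvd_of_injective _ hinj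
    have h3 : Nat.card {x : (P : Subgroup G) // x ≠ 1 ∧ x ^ 2 = 1} ≤ 3 := by
      have h5 : Nat.card {x : (P : Subgroup G) // x ≠ 1 ∧ x ^ 2 = 1} <
          Nat.card {x : (P : Subgroup G) // x ^ 2 = 1} := by
        rw [Nat.card_eq_fintype_card, Nat.card_eq_fintype_card, Fintype.card_subtype,
          Fintype.card_subtype]
        apply Finset.card_lt_card
        rw [Finset.ssubset_iff_of_subset]
        · refine ⟨1, ?_, ?_⟩
          · simp
          · simp
        · intro x hx
          simp only [Finset.mem_filter, Finset.mem_univ, true_and] at hx ⊢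
          exact hx.2
      omega
    rw [Nat.card_perm] at h2
    refine h2.trans ?_
    interval_cases (Nat.card {x : (P : Subgroup G) // x ≠ 1 ∧ x ^ 2 = 1}) <;> decide
  have h2 : Nat.card R = 1 ∨ Nat.card R = 3 := by
    have h3 := Nat.le_of_dvd (by norm_num) h1
    interval_cases (Nat.card R) <;> omega
  rcases h2 with h2 | h2
  · have := (Nat.card_eq_one_iff_unique.mp h2).1
    exact isCyclic_of_subsingleton
  · have : Fact (Nat.Prime 3) := ⟨by norm_num⟩
    exact isCyclic_of_prime_card (p := 3) h2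

end Pool.Agent.NGP
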